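import Mathlib

set_option autoImplicit false

namespace Pool.Agent.H9.IDP

open Finset

theorem sum_pair {M : Type*} [AddCommMonoid M] (F : ℕ → M) (m : ℕ) :
    ∑ i ∈ range (2 * m + 1), F i = F 0 + ∑ j ∈ range m, (F (2 * j + 1) + F (2 * j + 2)) := by
  induction m with
  | zero => simp
  | succ m ih =>
    rw [show 2 * (m + 1) + 1 = (2 * m + 1) + 1 + 1 by ring, sum_range_succ, sum_range_succ, ih,
      sum_range_succ]
    simp only [add_assoc]

theorem pair_bound {M : Type*} [AddCommMonoid M] [PartialOrder M] [IsOrderedAddMonoid M]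
    (F : ℕ → M) (b : M) (s a : ℕ)
    (h : ∀ i, i < a → F (s + 2 * i) + F (s + 2 * i + 1) ≤ b) :
    ∑ i ∈ range (2 * a), F (s + i) ≤ a • b := by
  induction a with
  | zero => simp
  | succ a ih =>
    rw [show 2 * (a + 1) = (2 * a) + 1 + 1 by ring, sum_range_succ, sum_range_succ, succ_nsmul,
      add_assoc]
    exact add_le_add (ih fun i hi => h i (by omega)) (h a (by omega))

section zmod

variable {m : ℕ}

theorem cast_inj {l l' : ℕ} (h : l < 2 * m + 1) (h' : l' < 2 * m + 1) :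
    ((l : ZMod (2 * m + 1)) = (l' : ZMod (2 * m + 1))) ↔ l = l' := by
  rw [ZMod.natCast_eq_natCast_iff', Nat.mod_eq_of_lt h, Nat.mod_eq_of_lt h']

theorem cast_top : ((2 * m + 1 : ℕ) : ZMod (2 * m + 1)) = 0 := ZMod.natCast_self _

theorem exists_cast (x : ZMod (2 * m + 1)) : ∃ l : ℕ, l < 2 * m + 1 ∧ x = (l : ZMod (2 * m + 1)) :=
  ⟨x.val, ZMod.val_lt x, (ZMod.natCast_zmod_val x).symm⟩

theorem sum_zmod {M : Type*} [AddCommMonoid M] (f : ZMod (2 * m + 1) → M) :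
    ∑ x, f x = ∑ i ∈ range (2 * m + 1), f (i : ZMod (2 * m + 1)) := by
  symm
  refine Finset.sum_bij (fun i _ => (i : ZMod (2 * m + 1))) ?_ ?_ ?_ ?_
  · intros; simp
  · intro a ha b hb hab
    exact (cast_inj (mem_range.1 ha) (mem_range.1 hb)).1 hab
  · intro b _
    obtain ⟨l, hl, h⟩ := exists_cast b
    exact ⟨l, mem_range.2 hl, h.symm⟩
  · intros; rfl

theorem sum_shift {M : Type*} [AddCommMonoid M] (f : ZMod (2 * m + 1) → M) (a : ZMod (2 * m + 1)) :
    ∑ x, f (x + a) = ∑ x, f x :=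
  Fintype.sum_equiv (Equiv.addRight a) _ _ (fun _ => rfl)

theorem sum_neg {M : Type*} [AddCommMonoid M] (f : ZMod (2 * m + 1) → M) :
    ∑ x, f (-x) = ∑ x, f x :=
  Fintype.sum_equiv (Equiv.neg _) _ _ (fun _ => rfl)

/-- a stable indicator on an odd cycle has sum at most `m` -/
theorem sum_le_of_stable (f : ZMod (2 * m + 1) → ℕ) (h : ∀ x, f x + f (x + 1) ≤ 1) :
    ∑ x, f x ≤ m := by
  have h1 : ∑ x, (f x + f (x + 1)) ≤ ∑ _x : ZMod (2 * m + 1), 1 := Finset.sum_le_sum fun x _ => h x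
  rw [Finset.sum_add_distrib, sum_shift f 1] at h1
  simp [ZMod.card] at h1
  omega

theorem le_sum_of_cover (f : ZMod (2 * m + 1) → ℕ) (h : ∀ x, 1 ≤ f x + f (x + 1)) :
    m ≤ ∑ x, f x := by
  have h1 : ∑ _x : ZMod (2 * m + 1), 1 ≤ ∑ x, (f x + f (x + 1)) := Finset.sum_le_sum fun x _ => h x
  rw [Finset.sum_add_distrib, sum_shift f 1] at h1
  simp [ZMod.card] at h1
  omega

theorem sat (f : ZMod (2 * m + 1) → ℕ) (h : ∀ x, f x + f (x + 1) ≤ 1) (h0 : f 0 = 0)
    (h1 : f 1 = 0) (hs : m ≤ ∑ x, f x) (j : ℕ) (hj : 1 ≤ j) (hjm : j ≤ m) :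
    f ((2 * j : ℕ) : ZMod (2 * m + 1)) = 1 := by
  have hle : f ((2 * j : ℕ) : ZMod (2 * m + 1)) ≤ 1 := le_trans (Nat.le_add_right _ _) (h _)
  by_contra hne
  have hz : f ((2 * j : ℕ) : ZMod (2 * m + 1)) = 0 := by omega
  set F : ℕ → ℕ := fun i => f (i : ZMod (2 * m + 1)) with hF
  have hF1 : ∀ i, F i + F (i + 1) ≤ 1 := by
    intro i
    have := h (i : ZMod (2 * m + 1))
    simpa [hF] using this
  rw [sum_zmod] at hs
  have e1 : ∑ i ∈ range (2 * m + 1), F i
      = ∑ i ∈ range 2, F i + ∑ i ∈ range (2 * (j - 1)), F (2 + i) + F (2 * j)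
        + ∑ i ∈ range (2 * (m - j)), F ((2 * j + 1) + i) := by
    rw [show 2 * m + 1 = (2 + 2 * (j - 1) + 1) + 2 * (m - j) by omega, Finset.sum_range_add,
      Finset.sum_range_add, Finset.sum_range_add]
    congr 1
    · congr 1
      simp only [Finset.sum_range_one, add_zero]
      congr 1
      omega
    · apply Finset.sum_congr rfl
      intro i _
      congr 1
      omega
  have e2 : ∑ i ∈ range 2, F i = 0 := by
    rw [Finset.sum_range_succ, Finset.sum_range_one]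
    simp [hF, h0, h1]
  have e3 : ∑ i ∈ range (2 * (j - 1)), F (2 + i) ≤ (j - 1) • 1 :=
    pair_bound F 1 2 (j - 1) (fun i _ => hF1 _)
  have e4 : ∑ i ∈ range (2 * (m - j)), F ((2 * j + 1) + i) ≤ (m - j) • 1 :=
    pair_bound F 1 (2 * j + 1) (m - j) (fun i _ => hF1 _)
  simp only [smul_eq_mul, mul_one] at e3 e4
  have e5 : F (2 * j) = 0 := hz
  change m ≤ ∑ i ∈ range (2 * m + 1), F i at hs
  omega

theorem le_sum_of_even (f : ZMod (2 * m + 1) → ℕ)
    (h : ∀ j, 1 ≤ j → j ≤ m → 1 ≤ f ((2 * j : ℕ) : ZMod (2 * m + 1))) : m ≤ ∑ x, f x := by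
  rw [sum_zmod, sum_pair (fun i => f (i : ZMod (2 * m + 1)))]
  have : ∑ j ∈ range m, 1 ≤ ∑ j ∈ range m,
      (f ((2 * j + 1 : ℕ) : ZMod (2 * m + 1)) + f ((2 * j + 2 : ℕ) : ZMod (2 * m + 1))) := by
    apply Finset.sum_le_sum
    intro j hj
    have := h (j + 1) (by omega) (by have := mem_range.1 hj; omega)
    rw [show 2 * (j + 1) = 2 * j + 2 by ring] at this
    omega
  simp only [sum_const, card_range, smul_eq_mul, mul_one] at this
  omega

theorem le_sum_of_odd (f : ZMod (2 * m + 1) → ℕ)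
    (h : ∀ j, j < m → 1 ≤ f ((2 * j + 1 : ℕ) : ZMod (2 * m + 1))) : m ≤ ∑ x, f x := by
  rw [sum_zmod, sum_pair (fun i => f (i : ZMod (2 * m + 1)))]
  have : ∑ j ∈ range m, 1 ≤ ∑ j ∈ range m,
      (f ((2 * j + 1 : ℕ) : ZMod (2 * m + 1)) + f ((2 * j + 2 : ℕ) : ZMod (2 * m + 1))) := by
    apply Finset.sum_le_sum
    intro j hj
    have := h j (mem_range.1 hj)
    omega
  simp only [sum_const, card_range, smul_eq_mul, mul_one] at this
  omega

end zmod

end Pool.Agent.H9.IDP
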