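import Mathlib
import Pool.Agent.H9.IDP.Cyc

set_option autoImplicit false

namespace Pool.Agent.H9.IDP

open Finset

section chain

variable {V : Type*}

/-- `Lev R g n u`: there is an `R`-chain of length `n` from `g` to `u` -/
def Lev (R : V → V → Prop) (g : V) : ℕ → V → Prop
  | 0, u => u = g
  | n + 1, u => ∃ v, Lev R g n v ∧ R v u

theorem Lev.chain {R : V → V → Prop} {g : V} : ∀ {n : ℕ} {u : V}, Lev R g n u →
    ∃ z : ℕ → V, z 0 = g ∧ z n = u ∧ ∀ i, i < n → R (z i) (z (i + 1))
  | 0, u, h => ⟨fun _ => g, rfl, h.symm, fun i hi => absurd hi (Nat.not_lt_zero i)⟩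
  | n + 1, u, ⟨v, hv, hR⟩ => by
    obtain ⟨z, h0, hn, hz⟩ := Lev.chain hv
    refine ⟨fun i => if i ≤ n then z i else u, by simp [h0], by simp, ?_⟩
    intro i hi
    rcases Nat.lt_or_ge i n with h | h
    · have h1 : i ≤ n := h.le
      have h2 : i + 1 ≤ n := h
      simp only [h1, h2, if_true]
      exact hz i h
    · have h1 : i = n := by omega
      subst h1
      simp only [le_refl, if_true, Nat.not_succ_le_self, if_false]
      rw [hn]
      exact hR

theorem Lev.extend {R : V → V → Prop} {g : V} {z : ℕ → V} {n : ℕ}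
    (hz : ∀ i, i < n → R (z i) (z (i + 1))) {a i : ℕ} (h : Lev R g a (z i)) :
    ∀ e, i + e ≤ n → Lev R g (a + e) (z (i + e))
  | 0, _ => h
  | e + 1, he => ⟨z (i + e), Lev.extend hz h e (by omega), hz (i + e) (by omega)⟩

theorem minchain {R : V → V → Prop} {g : V} {T : V → Prop} {n : ℕ} {u : V} (h : Lev R g n u)
    (hT : T u) : ∃ (n : ℕ) (z : ℕ → V), z 0 = g ∧ (∀ i, i < n → R (z i) (z (i + 1))) ∧ T (z n) ∧
      (∀ i, i < n → ¬ T (z i)) ∧ (∀ i j, i ≤ n → j ≤ n → R (z i) (z j) → j ≤ i + 1) ∧
      (∀ i j, i ≤ n → j ≤ n → z i = z j → i = j) := by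
  classical
  have hex : ∃ n, ∃ u, Lev R g n u ∧ T u := ⟨n, u, h, hT⟩
  obtain ⟨u', hu', hTu'⟩ := Nat.find_spec hex
  have hmin : ∀ n' u', Lev R g n' u' → T u' → Nat.find hex ≤ n' :=
    fun n' u' h1 h2 => Nat.find_min' hex ⟨u', h1, h2⟩
  obtain ⟨z, h0, hn, hz⟩ := Lev.chain hu'
  set N := Nat.find hex with hN
  have hlev : ∀ i, i ≤ N → Lev R g i (z i) := by
    intro i hi
    have := Lev.extend hz (show Lev R g 0 (z 0) from h0) i (by omega)
    simpa using this
  have hTN : T (z N) := by rw [hn]; exact hTu'
  refine ⟨N, z, h0, hz, hTN, ?_, ?_, ?_⟩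
  · intro i hi hTi
    have := hmin i _ (hlev i hi.le) hTi
    omega
  · intro i j hi hj hR
    by_contra hlt
    have h1 : Lev R g (i + 1) (z j) := ⟨z i, hlev i hi, hR⟩
    have h2 := Lev.extend hz h1 (N - j) (by omega)
    rw [show j + (N - j) = N by omega] at h2
    have := hmin _ _ h2 hTN
    omega
  · have key : ∀ i j, i < j → j ≤ N → z i = z j → False := by
      intro i j hij hj he
      have h1 : Lev R g i (z j) := he ▸ hlev i (by omega)
      have h2 := Lev.extend hz h1 (N - j) (by omega)
      rw [show j + (N - j) = N by omega] at h2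
      have := hmin _ _ h2 hTN
      omega
    intro i j hi hj he
    rcases Nat.lt_trichotomy i j with h | h | h
    · exact (key i j h hj he).elim
    · exact h
    · exact (key j i h hi he.symm).elim

end chain

section hole

variable {V : Type*} {G : SimpleGraph V} {m : ℕ} {c : ZMod (2 * m + 1) → V}

/-- an induced odd cycle of length at least five -/
structure Hole (G : SimpleGraph V) (m : ℕ) (c : ZMod (2 * m + 1) → V) : Prop where
  two_le : 2 ≤ m
  inj : Function.Injective c
  adj : ∀ x y, G.Adj (c x) (c y) ↔ y = x + 1 ∨ x = y + 1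

/-- `u` is a vertex outside of the cycle whose neighbours on it are `c s` and `c (s+1)` -/
def At (G : SimpleGraph V) (c : ZMod (2 * m + 1) → V) (u : V) (s : ZMod (2 * m + 1)) : Prop :=
  (∀ x, u ≠ c x) ∧ ∀ x, G.Adj u (c x) ↔ x = s ∨ x = s + 1

/-- the clique attached to the edge `c s`, `c (s+1)` -/
def Q (G : SimpleGraph V) (c : ZMod (2 * m + 1) → V) (s : ZMod (2 * m + 1)) (u : V) : Prop :=
  u = c s ∨ u = c (s + 1) ∨ At G c u s

def ClawFree (G : SimpleGraph V) : Prop :=
  ∀ c a b d : V, G.Adj c a → G.Adj c b → G.Adj c d → a ≠ b → a ≠ d → b ≠ d →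
    G.Adj a b ∨ G.Adj a d ∨ G.Adj b d

def Att (G : SimpleGraph V) : Prop :=
  ∀ (m : ℕ) (c : ZMod (2 * m + 1) → V), Hole G m c → ∀ u, (∀ x, u ≠ c x) → ∀ x, G.Adj u (c x) →
    ∃ s, At G c u s

def NoEar (G : SimpleGraph V) : Prop :=
  ∀ (m : ℕ) (c : ZMod (2 * m + 1) → V), Hole G m c → ∀ (t : ℕ) (z : ℕ → V)
    (s s' : ZMod (2 * m + 1)), 1 ≤ t → s ≠ s' → At G c (z 0) s → At G c (z (2 * t)) s' →
    (∀ i, 0 < i → i < 2 * t → ∀ x, z i ≠ c x ∧ ¬ G.Adj (z i) (c x)) →
    (∀ i j, i ≤ 2 * t → j ≤ 2 * t → (G.Adj (z i) (z j) ↔ j = i + 1 ∨ i = j + 1)) →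
    (∀ i j, i ≤ 2 * t → j ≤ 2 * t → z i = z j → i = j) → False

theorem ncast {n : ℕ} (h0 : 0 < n) (h : n < 2 * m + 1) : ((n : ℕ) : ZMod (2 * m + 1)) ≠ 0 := by
  intro he
  have := (cast_inj (m := m) h (Nat.succ_pos _)).1 (by simpa using he)
  omega

theorem one_ne (hm : 2 ≤ m) : (1 : ZMod (2 * m + 1)) ≠ 0 := by
  have := ncast (m := m) (n := 1) (by omega) (by omega)
  simpa using this

theorem two_ne (hm : 2 ≤ m) : (2 : ZMod (2 * m + 1)) ≠ 0 := by
  have := ncast (m := m) (n := 2) (by omega) (by omega)
  simpa using this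

theorem three_ne (hm : 2 ≤ m) : (3 : ZMod (2 * m + 1)) ≠ 0 := by
  have := ncast (m := m) (n := 3) (by omega) (by omega)
  simpa using this

theorem Hole.shift (h : Hole G m c) (a : ZMod (2 * m + 1)) : Hole G m (fun x => c (x + a)) where
  two_le := h.two_le
  inj := fun x y hxy => by
    have := h.inj hxy
    exact add_right_cancel this
  adj := fun x y => by
    rw [h.adj]
    constructor
    · rintro (e | e)
      · left; linear_combination e
      · right; linear_combination e
    · rintro (e | e)
      · left; linear_combination e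
      · right; linear_combination e

theorem Hole.neg (h : Hole G m c) : Hole G m (fun x => c (-x)) where
  two_le := h.two_le
  inj := fun x y hxy => by
    have := h.inj hxy
    exact neg_injective this
  adj := fun x y => by
    rw [h.adj]
    constructor
    · rintro (e | e)
      · right; linear_combination e
      · left; linear_combination e
    · rintro (e | e)
      · right; linear_combination e
      · left; linear_combination e

theorem at_shift (a : ZMod (2 * m + 1)) (u : V) (s : ZMod (2 * m + 1)) :
    At G (fun x => c (x + a)) u s ↔ At G c u (s + a) := by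
  unfold At
  constructor
  · rintro ⟨h1, h2⟩
    refine ⟨fun x => ?_, fun x => ?_⟩
    · have := h1 (x - a)
      simpa using this
    · have := h2 (x - a)
      simp only [sub_add_cancel] at this
      rw [this]
      constructor
      · rintro (e | e)
        · left; linear_combination e
        · right; linear_combination e
      · rintro (e | e)
        · left; linear_combination e
        · right; linear_combination e
  · rintro ⟨h1, h2⟩
    refine ⟨fun x => h1 _, fun x => ?_⟩
    rw [h2]
    constructor
    · rintro (e | e)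
      · left; linear_combination e
      · right; linear_combination e
    · rintro (e | e)
      · left; linear_combination e
      · right; linear_combination e

theorem at_neg (u : V) (s : ZMod (2 * m + 1)) :
    At G (fun x => c (-x)) u s ↔ At G c u (-s - 1) := by
  unfold At
  constructor
  · rintro ⟨h1, h2⟩
    refine ⟨fun x => ?_, fun x => ?_⟩
    · have := h1 (-x)
      simpa using this
    · have := h2 (-x)
      simp only [neg_neg] at this
      rw [this]
      constructor
      · rintro (e | e)
        · right; linear_combination -e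
        · left; linear_combination -e
      · rintro (e | e)
        · right; linear_combination -e
        · left; linear_combination -e
  · rintro ⟨h1, h2⟩
    refine ⟨fun x => h1 _, fun x => ?_⟩
    rw [h2]
    constructor
    · rintro (e | e)
      · right; linear_combination -e
      · left; linear_combination -e
    · rintro (e | e)
      · right; linear_combination -e
      · left; linear_combination -e

theorem q_shift (a : ZMod (2 * m + 1)) (s : ZMod (2 * m + 1)) (u : V) :
    Q G (fun x => c (x + a)) s u ↔ Q G c (s + a) u := by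
  unfold Q
  rw [at_shift]
  change (u = c (s + a) ∨ u = c (s + 1 + a) ∨ _) ↔ _
  rw [show s + 1 + a = s + a + 1 by ring]

theorem q_neg (s : ZMod (2 * m + 1)) (u : V) :
    Q G (fun x => c (-x)) s u ↔ Q G c (-s - 1) u := by
  unfold Q
  rw [at_neg]
  change (u = c (-s) ∨ u = c (-(s + 1)) ∨ _) ↔ _
  rw [show -(s + 1) = -s - 1 by ring, show -s - 1 + 1 = -s by ring]
  tauto

theorem Hole.next (h : Hole G m c) (x : ZMod (2 * m + 1)) : G.Adj (c x) (c (x + 1)) :=
  (h.adj _ _).2 (Or.inl rfl)

theorem At.left {u : V} {s : ZMod (2 * m + 1)} (h : At G c u s) : G.Adj u (c s) :=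
  (h.2 _).2 (Or.inl rfl)

theorem At.right {u : V} {s : ZMod (2 * m + 1)} (h : At G c u s) : G.Adj u (c (s + 1)) :=
  (h.2 _).2 (Or.inr rfl)

theorem At.unique (hm : 2 ≤ m) {u : V} {s s' : ZMod (2 * m + 1)} (h : At G c u s)
    (h' : At G c u s') : s = s' := by
  have h1 := (h'.2 s).1 h.left
  have h2 := (h.2 s').1 h'.left
  rcases h1 with h1 | h1
  · exact h1
  · rcases h2 with h2 | h2
    · exact h2.symm
    · exfalso
      apply two_ne (m := m) hm
      linear_combination -h1 - h2

/-- the sets `Q s` are cliques -/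
theorem Hole.q_clique (h : Hole G m c) (hc : ClawFree G) {s : ZMod (2 * m + 1)} {u v : V}
    (hu : Q G c s u) (hv : Q G c s v) (hne : u ≠ v) : G.Adj u v := by
  rcases hu with rfl | rfl | hu <;> rcases hv with rfl | rfl | hv
  · exact absurd rfl hne
  · exact h.next s
  · exact hv.left.symm
  · exact (h.next s).symm
  · exact absurd rfl hne
  · exact hv.right.symm
  · exact hu.left
  · exact hu.right
  · have h1 := hc (c s) (c (s - 1)) u v ((h.adj _ _).2 (Or.inr (by ring))) hu.left.symm hv.left.symm
      (hu.1 _).symm (hv.1 _).symm hne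
    have key : ∀ w, At G c w s → ¬ G.Adj (c (s - 1)) w := by
      intro w hw ha
      rcases (hw.2 _).1 ha.symm with e | e
      · exact one_ne (m := m) h.two_le (by linear_combination -e)
      · exact two_ne (m := m) h.two_le (by linear_combination -e)
    rcases h1 with h1 | h1 | h1
    · exact absurd h1 (key u hu)
    · exact absurd h1 (key v hv)
    · exact h1

theorem Hole.nbr (h : Hole G m c) (hA : Att G) {s : ZMod (2 * m + 1)} {u : V}
    (hu : G.Adj (c s) u) : Q G c s u ∨ Q G c (s - 1) u := by
  by_cases hx : ∃ x, u = c x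
  · obtain ⟨x, rfl⟩ := hx
    rcases (h.adj _ _).1 hu with e | e
    · left; right; left; rw [e]
    · right; left; rw [e]; congr 1; ring
  · have hx : ∀ x, u ≠ c x := fun x e => hx ⟨x, e⟩
    obtain ⟨s', hs'⟩ := hA m c h u hx s hu.symm
    rcases (hs'.2 s).1 hu.symm with e | e
    · left; right; right; rw [e]; exact hs'
    · right; right; right; rw [e]; simpa using hs'

end hole

end Pool.Agent.H9.IDP
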