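import Mathlib
import Pool.Agent.H9.IDP.Hole

set_option autoImplicit false
set_option linter.unusedSectionVars false

namespace Pool.Agent.H9.IDP

open Finset

section colour

variable {V : Type*} {K : Type*} [DecidableEq V] [DecidableEq K] {G : SimpleGraph V}

def Proper (G : SimpleGraph V) (φ : V → Finset K) : Prop :=
  ∀ u v, G.Adj u v → ∀ x, x ∈ φ u → x ∉ φ v

def Full (w : V → ℕ) (φ : V → Finset K) : Prop := ∀ v, (φ v).card = w v

def Token (w : V → ℕ) (v : V) (φ : V → Finset K) : Prop :=
  ∀ u, (φ u).card + (if u = v then 1 else 0) = w u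

open Classical in
noncomputable def sw (γ δ : K) (D : V → Prop) (φ : V → Finset K) (v : V) : Finset K :=
  if D v then (φ v).map (Equiv.swap γ δ).toEmbedding else φ v

theorem sw_card (γ δ : K) (D : V → Prop) (φ : V → Finset K) (v : V) :
    (sw γ δ D φ v).card = (φ v).card := by
  unfold sw
  split_ifs <;> simp

theorem sw_out {γ δ : K} {D : V → Prop} {φ : V → Finset K} {v : V} (h : ¬ D v) :
    sw γ δ D φ v = φ v := by
  unfold sw
  simp [h]

theorem sw_mem_in {γ δ : K} {D : V → Prop} {φ : V → Finset K} {v : V} (h : D v) (x : K) :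
    x ∈ sw γ δ D φ v ↔ Equiv.swap γ δ x ∈ φ v := by
  unfold sw
  rw [if_pos h, Finset.mem_map_equiv, Equiv.symm_swap]

theorem sw_mem_other {γ δ : K} {D : V → Prop} {φ : V → Finset K} {v : V} {x : K} (h1 : x ≠ γ)
    (h2 : x ≠ δ) : x ∈ sw γ δ D φ v ↔ x ∈ φ v := by
  by_cases h : D v
  · rw [sw_mem_in h, Equiv.swap_apply_of_ne_of_ne h1 h2]
  · rw [sw_out h]

theorem sw_left {γ δ : K} {D : V → Prop} {φ : V → Finset K} {v : V} (h : D v) :
    γ ∈ sw γ δ D φ v ↔ δ ∈ φ v := by
  rw [sw_mem_in h, Equiv.swap_apply_left]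

theorem sw_right {γ δ : K} {D : V → Prop} {φ : V → Finset K} {v : V} (h : D v) :
    δ ∈ sw γ δ D φ v ↔ γ ∈ φ v := by
  rw [sw_mem_in h, Equiv.swap_apply_right]

theorem sw_proper {γ δ : K} {D : V → Prop} {φ : V → Finset K} (hφ : Proper G φ)
    (hD : ∀ u v, G.Adj u v → D u → (γ ∈ φ u ∨ δ ∈ φ u) → (γ ∈ φ v ∨ δ ∈ φ v) → D v) :
    Proper G (sw γ δ D φ) := by
  have key : ∀ u v, G.Adj u v → D u → ¬ D v → ∀ x, x ∈ sw γ δ D φ u → x ∈ φ v → False := by
    intro u v huv hu hv x hx hx'
    rw [sw_mem_in hu] at hx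
    by_cases h1 : x = γ
    · subst h1
      rw [Equiv.swap_apply_left] at hx
      exact hv (hD u v huv hu (Or.inr hx) (Or.inl hx'))
    · by_cases h2 : x = δ
      · subst h2
        rw [Equiv.swap_apply_right] at hx
        exact hv (hD u v huv hu (Or.inl hx) (Or.inr hx'))
      · rw [Equiv.swap_apply_of_ne_of_ne h1 h2] at hx
        exact hφ u v huv x hx hx'
  intro u v huv x hx hx'
  by_cases hu : D u <;> by_cases hv : D v
  · rw [sw_mem_in hu] at hx
    rw [sw_mem_in hv] at hx'
    exact hφ u v huv _ hx hx'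
  · rw [sw_out hv] at hx'
    exact key u v huv hu hv x hx hx'
  · rw [sw_out hu] at hx
    exact key v u huv.symm hv hu x hx' hx
  · rw [sw_out hu] at hx
    rw [sw_out hv] at hx'
    exact hφ u v huv _ hx hx'

theorem add_token {w : V → ℕ} {v : V} {φ : V → Finset K} (hφ : Proper G φ) (hT : Token w v φ)
    {ν : K} (h1 : ν ∉ φ v) (h2 : ∀ u, G.Adj v u → ν ∉ φ u) :
    ∃ φ' : V → Finset K, Proper G φ' ∧ Full w φ' := by
  refine ⟨Function.update φ v (insert ν (φ v)), ?_, ?_⟩
  · intro a b hab x hx hx'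
    by_cases ha : a = v
    · subst ha
      have hb : b ≠ a := hab.ne'
      rw [Function.update_self] at hx
      rw [Function.update_of_ne hb] at hx'
      rcases Finset.mem_insert.1 hx with rfl | hx
      · exact h2 b hab hx'
      · exact hφ a b hab x hx hx'
    · rw [Function.update_of_ne ha] at hx
      by_cases hb : b = v
      · subst hb
        rw [Function.update_self] at hx'
        rcases Finset.mem_insert.1 hx' with rfl | hx'
        · exact h2 a hab.symm hx
        · exact hφ a b hab x hx hx'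
      · rw [Function.update_of_ne hb] at hx'
        exact hφ a b hab x hx hx'
  · intro u
    have := hT u
    by_cases hu : u = v
    · subst hu
      rw [Function.update_self, Finset.card_insert_of_notMem h1]
      simpa using this
    · rw [Function.update_of_ne hu]
      simpa [hu] using this

end colour

section kempe

variable {V : Type*} {K : Type*} [DecidableEq V] [DecidableEq K] {G : SimpleGraph V}
  {m : ℕ}

/-- one step of a two-coloured path outside of the cycle -/
def Step (G : SimpleGraph V) (c : ZMod (2 * m + 1) → V) (φ : V → Finset K) (γ κ : K) (a b : V) :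
    Prop := G.Adj a b ∧ (∀ x, b ≠ c x) ∧ (γ ∈ φ b ∨ κ ∈ φ b)

def Reach (G : SimpleGraph V) (c : ZMod (2 * m + 1) → V) (φ : V → Finset K) (γ κ : K) (g u : V) :
    Prop := ∃ n, Lev (Step G c φ γ κ) g n u

theorem Reach.refl {c : ZMod (2 * m + 1) → V} {φ : V → Finset K} {γ κ : K} {g : V} :
    Reach G c φ γ κ g g := ⟨0, rfl⟩

theorem Reach.step {c : ZMod (2 * m + 1) → V} {φ : V → Finset K} {γ κ : K} {g u v : V}
    (h : Reach G c φ γ κ g u) (h' : Step G c φ γ κ u v) : Reach G c φ γ κ g v := by
  obtain ⟨n, hn⟩ := h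
  exact ⟨n + 1, u, hn, h'⟩

theorem Reach.out {c : ZMod (2 * m + 1) → V} {φ : V → Finset K} {γ κ : K} {g u : V}
    (hg : ∀ x, g ≠ c x) (h : Reach G c φ γ κ g u) : ∀ x, u ≠ c x := by
  obtain ⟨n, hn⟩ := h
  cases n with
  | zero => rw [show u = g from hn]; exact hg
  | succ n => obtain ⟨v, _, hv⟩ := hn; exact hv.2.1

structure Ctx (G : SimpleGraph V) : Prop where
  claw : ClawFree G
  att : Att G
  ear : NoEar G

theorem tail (X : Ctx G) {c : ZMod (2 * m + 1) → V} (h : Hole G m c) {φ : V → Finset K}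
    (hφ : Proper G φ) {g : V} {s : ZMod (2 * m + 1)} {γ κ : K} (hg : At G c g s) (hγ : γ ∈ φ g)
    (hκ : ∀ u s, At G c u s → κ ∉ φ u) {u : V} {s' : ZMod (2 * m + 1)}
    (hu : Reach G c φ γ κ g u) (hus : At G c u s') : u = g := by
  by_contra hne
  obtain ⟨n, hn⟩ := hu
  obtain ⟨N, z, z0, zR, ⟨zN, s₁, hs₁⟩, zlt, zind, zinj⟩ :=
    minchain (T := fun v => v ≠ g ∧ ∃ s, At G c v s) hn ⟨hne, s', hus⟩
  have hcol : ∀ i, i ≤ N → (i % 2 = 0 → γ ∈ φ (z i)) ∧ (i % 2 = 1 → κ ∈ φ (z i)) := by
    intro i
    induction i with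
    | zero => intro _; exact ⟨fun _ => z0 ▸ hγ, fun h => by simp at h⟩
    | succ i ih =>
      intro hi
      have hR := zR i (by omega)
      obtain ⟨h1, h2⟩ := ih (by omega)
      constructor
      · intro hp
        have := h2 (by omega)
        rcases hR.2.2 with h3 | h3
        · exact h3
        · exact absurd h3 (hφ _ _ hR.1 _ this)
      · intro hp
        have := h1 (by omega)
        rcases hR.2.2 with h3 | h3
        · exact absurd h3 (hφ _ _ hR.1 _ this)
        · exact h3
  have hNpos : 0 < N := by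
    rcases Nat.eq_zero_or_pos N with h0 | h0
    · exfalso; apply zN; rw [h0, z0]
    · exact h0
  have hNeven : N % 2 = 0 := by
    by_contra hodd
    exact hκ _ _ hs₁ ((hcol N le_rfl).2 (by omega))
  have hγN := (hcol N le_rfl).1 hNeven
  by_cases hss : s = s₁
  · have hadj := h.q_clique X.claw (Or.inr (Or.inr (hss ▸ hg))) (Or.inr (Or.inr hs₁)) (Ne.symm zN)
    exact hφ _ _ hadj _ hγ hγN
  · obtain ⟨t, ht⟩ : ∃ t, N = 2 * t := ⟨N / 2, by omega⟩
    subst ht
    refine X.ear m c h t z s s₁ (by omega) hss (z0 ▸ hg) hs₁ ?_ ?_ zinj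
    · intro i hi0 hi x
      have hout : ∀ x, z i ≠ c x := by
        have := zR (i - 1) (by omega)
        rw [show i - 1 + 1 = i by omega] at this
        exact this.2.1
      refine ⟨hout x, fun hadj => ?_⟩
      obtain ⟨s₂, hs₂⟩ := X.att m c h _ hout x hadj
      refine zlt i hi ⟨?_, s₂, hs₂⟩
      intro he
      have := zinj i 0 (by omega) (by omega) (he.trans z0.symm)
      omega
    · have key : ∀ i j, i ≤ 2 * t → j ≤ 2 * t → i < j → G.Adj (z i) (z j) → j = i + 1 := by
        intro i j hi hj hij hadj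
        have hR := zR (j - 1) (by omega)
        rw [show j - 1 + 1 = j by omega] at hR
        have := zind i j hi hj ⟨hadj, hR.2⟩
        omega
      intro i j hi hj
      constructor
      · intro hadj
        rcases Nat.lt_trichotomy i j with hl | hl | hl
        · left; exact key i j hi hj hl hadj
        · subst hl; exact absurd hadj (G.loopless.irrefl _)
        · right; exact key j i hj hi hl hadj.symm
      · rintro (rfl | rfl)
        · exact (zR i (by omega)).1
        · exact (zR j (by omega)).1.symm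

end kempe

end Pool.Agent.H9.IDP
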