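import Mathlib
import Pool.Agent.H9.IDP.Kempe

set_option autoImplicit false
set_option linter.unusedSectionVars false

namespace Pool.Agent.H9.IDP

open Finset

variable {V : Type*} {K : Type*} [DecidableEq V] [DecidableEq K] {G : SimpleGraph V}
  {m : ℕ}

theorem neg_one_cast : (-1 : ZMod (2 * m + 1)) = ((2 * m : ℕ) : ZMod (2 * m + 1)) := by
  have : ((2 * m + 1 : ℕ) : ZMod (2 * m + 1)) = 0 := ZMod.natCast_self _
  push_cast at this ⊢
  linear_combination -this

theorem kone (X : Ctx G) {c : ZMod (2 * m + 1) → V} (h : Hole G m c) {w : V → ℕ}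
    {φ : V → Finset K} (hφ : Proper G φ) (hT : Token w (c 0) φ)
    (hno : ¬ ∃ φ' : V → Finset K, Proper G φ' ∧ Full w φ') {ν γ : K}
    (hν : ∀ j : ℕ, j < m → ν ∈ φ (c ((2 * j + 1 : ℕ) : ZMod (2 * m + 1))))
    (hν' : ∀ u, Q G c (-1) u → ν ∉ φ u) (hγ : ∀ u, Q G c 0 u → γ ∉ φ u) :
    ∀ j : ℕ, 1 ≤ j → j ≤ m → γ ∈ φ (c ((2 * j : ℕ) : ZMod (2 * m + 1))) := by
  have hm := h.two_le
  have hatt : ∀ u s, At G c u s → ν ∉ φ u := by
    intro u s hs
    obtain ⟨l, hl, rfl⟩ := exists_cast s
    rcases Nat.even_or_odd' l with ⟨i, rfl | rfl⟩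
    · by_cases hi : i < m
      · have h1 := hs.right
        have h2 := hν i hi
        push_cast at h1 h2
        exact fun hh => hφ _ _ h1 _ hh h2
      · have him : i = m := by omega
        subst him
        rw [← neg_one_cast] at hs
        exact hν' _ (Or.inr (Or.inr hs))
    · exact fun hh => hφ _ _ hs.left _ hh (hν i (by omega))
  intro j
  induction j using Nat.strong_induction_on with
  | _ j ih =>
  intro hj1 hjm
  by_contra hj
  apply hno
  have hν0 : ν ∉ φ (c 0) := hν' _ (Or.inr (Or.inl (by simp)))
  have hγ0 : γ ∉ φ (c 0) := hγ _ (Or.inl rfl)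
  have hν2j : ν ∉ φ (c ((2 * j : ℕ) : ZMod (2 * m + 1))) := by
    have h1 := hν (j - 1) (by omega)
    have h2 := h.next ((2 * (j - 1) + 1 : ℕ) : ZMod (2 * m + 1))
    have h3 : ((2 * (j - 1) + 1 : ℕ) : ZMod (2 * m + 1)) + 1 = ((2 * j : ℕ) : ZMod (2 * m + 1)) := by
      rw [show 2 * j = 2 * (j - 1) + 1 + 1 by omega]
      push_cast
      ring
    rw [h3] at h2
    exact hφ _ _ h2 _ h1
  set D : V → Prop := fun v => (∃ l : ℕ, 1 ≤ l ∧ l ≤ 2 * j - 1 ∧ v = c (l : ZMod (2 * m + 1))) ∨
    (∃ g, At G c g ((2 * j - 1 : ℕ) : ZMod (2 * m + 1)) ∧ γ ∈ φ g ∧ Reach G c φ γ ν g v) with hDdef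
  have hclosed : ∀ u v, G.Adj u v → D u → (γ ∈ φ u ∨ ν ∈ φ u) → (γ ∈ φ v ∨ ν ∈ φ v) → D v := by
    intro u v huv hu _ hv
    rcases hu with ⟨l, hl1, hl2, rfl⟩ | ⟨g, hg, hγg, hr⟩
    · by_cases hvC : ∃ x, v = c x
      · obtain ⟨x, rfl⟩ := hvC
        rcases (h.adj _ _).1 huv with e | e
        · subst e
          by_cases hl3 : l + 1 ≤ 2 * j - 1
          · exact Or.inl ⟨l + 1, by omega, hl3, by push_cast; rfl⟩
          · exfalso
            have h4 : (l : ZMod (2 * m + 1)) + 1 = ((2 * j : ℕ) : ZMod (2 * m + 1)) := by
              rw [show 2 * j = l + 1 by omega]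
              push_cast
              ring
            rw [h4] at hv
            rcases hv with hv | hv
            · exact hj hv
            · exact hν2j hv
        · have h4 : x = ((l - 1 : ℕ) : ZMod (2 * m + 1)) := by
            rw [Nat.cast_sub hl1]
            push_cast
            linear_combination -e
          subst h4
          by_cases hl3 : 1 ≤ l - 1
          · exact Or.inl ⟨l - 1, hl3, by omega, rfl⟩
          · exfalso
            have h5 : l - 1 = 0 := by omega
            rw [h5, Nat.cast_zero] at hv
            rcases hv with hv | hv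
            · exact hγ0 hv
            · exact hν0 hv
      · have hout : ∀ x, v ≠ c x := fun x e => hvC ⟨x, e⟩
        obtain ⟨s, hs⟩ := X.att m c h v hout _ huv.symm
        have hγv : γ ∈ φ v := by
          rcases hv with hv | hv
          · exact hv
          · exact absurd hv (hatt _ _ hs)
        rcases Nat.even_or_odd' l with ⟨i, rfl | rfl⟩
        · exact absurd hγv (hφ _ _ huv _ (ih i (by omega) (by omega) (by omega)))
        · rcases (hs.2 _).1 huv.symm with e | e
          · subst e
            by_cases hl3 : i + 1 < j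
            · exfalso
              have h6 := hs.right
              have h7 : ((2 * i + 1 : ℕ) : ZMod (2 * m + 1)) + 1
                  = ((2 * (i + 1) : ℕ) : ZMod (2 * m + 1)) := by
                push_cast; ring
              rw [h7] at h6
              exact hφ _ _ h6 _ hγv (ih (i + 1) hl3 (by omega) (by omega))
            · right
              refine ⟨v, ?_, hγv, Reach.refl⟩
              have h8 : 2 * i + 1 = 2 * j - 1 := by omega
              rw [← h8]
              exact hs
          · exfalso
            have h6 : s = ((2 * i : ℕ) : ZMod (2 * m + 1)) := by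
              push_cast at e ⊢
              linear_combination -e
            subst h6
            rcases Nat.eq_zero_or_pos i with h0 | h0
            · subst h0
              refine hγ v (Or.inr (Or.inr ?_)) hγv
              simpa using hs
            · exact hφ _ _ hs.left _ hγv (ih i (by omega) (by omega) (by omega))
    · by_cases hvC : ∃ x, v = c x
      · obtain ⟨x, rfl⟩ := hvC
        have hout := hr.out hg.1
        obtain ⟨s, hs⟩ := X.att m c h u hout _ huv
        have hug := tail X h hφ hg hγg hatt hr hs
        subst hug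
        rcases (hg.2 _).1 huv with e | e
        · subst e
          exact Or.inl ⟨2 * j - 1, by omega, le_rfl, rfl⟩
        · exfalso
          have h4 : x = ((2 * j : ℕ) : ZMod (2 * m + 1)) := by
            rw [e, show 2 * j = (2 * j - 1) + 1 by omega]
            push_cast
            ring
          subst h4
          rcases hv with hv | hv
          · exact hj hv
          · exact hν2j hv
      · right
        exact ⟨g, hg, hγg, hr.step ⟨huv, fun x e => hvC ⟨x, e⟩, hv⟩⟩
  have hP := sw_proper hφ hclosed
  have hT' : Token w (c 0) (sw γ ν D φ) := fun u => by rw [sw_card]; exact hT u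
  have hD0 : ¬ D (c 0) := by
    rintro (⟨l, hl1, hl2, he⟩ | ⟨g, hg, hγg, hr⟩)
    · have := h.inj he
      rw [← Nat.cast_zero] at this
      have := (cast_inj (m := m) (by omega) (by omega)).1 this
      omega
    · exact hr.out hg.1 0 rfl
  refine add_token hP hT' (ν := ν) ?_ ?_
  · rw [sw_out hD0]; exact hν0
  · intro u hu
    have hnb := h.nbr X.att hu
    by_cases hDu : D u
    · rw [sw_right hDu]
      rcases hnb with hq | hq
      · exact hγ u hq
      · rw [zero_sub] at hq
        exfalso
        rcases hq with rfl | rfl | hq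
        · rcases hDu with ⟨l, hl1, hl2, he⟩ | ⟨g, hg, hγg, hr⟩
          · have := h.inj he
            rw [neg_one_cast] at this
            have := (cast_inj (m := m) (by omega) (by omega)).1 this
            omega
          · exact hr.out hg.1 _ rfl
        · rw [neg_add_cancel] at hu
          exact G.loopless.irrefl _ hu
        · rcases hDu with ⟨l, hl1, hl2, he⟩ | ⟨g, hg, hγg, hr⟩
          · exact hq.1 _ he
          · have hug := tail X h hφ hg hγg hatt hr hq
            subst hug
            have := hq.unique hm hg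
            rw [neg_one_cast] at this
            have := (cast_inj (m := m) (by omega) (by omega)).1 this
            omega
    · rw [sw_out hDu]
      rcases hnb with hq | hq
      · rcases hq with rfl | rfl | hq
        · exact absurd hu (G.loopless.irrefl _)
        · exfalso
          apply hDu
          left
          exact ⟨1, le_rfl, by omega, by simp⟩
        · exact hatt _ _ hq
      · rw [zero_sub] at hq
        exact hν' u hq

structure Config (G : SimpleGraph V) (w : V → ℕ) (m : ℕ) (c : ZMod (2 * m + 1) → V)
    (φ : V → Finset K) (μ ν : K) : Prop where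
  hole : Hole G m c
  proper : Proper G φ
  token : Token w (c 0) φ
  ne : μ ≠ ν
  odd : ∀ j : ℕ, j < m → ν ∈ φ (c ((2 * j + 1 : ℕ) : ZMod (2 * m + 1)))
  even : ∀ j : ℕ, 1 ≤ j → j ≤ m → μ ∈ φ (c ((2 * j : ℕ) : ZMod (2 * m + 1)))
  mu : ∀ u, Q G c 0 u → μ ∉ φ u
  nu : ∀ u, Q G c (-1) u → ν ∉ φ u

theorem kthree (X : Ctx G) {c : ZMod (2 * m + 1) → V} {w : V → ℕ}
    {φ : V → Finset K} {μ ν : K} (C : Config G w m c φ μ ν)
    (hno : ¬ ∃ φ' : V → Finset K, Proper G φ' ∧ Full w φ') {γ : K}
    (h0 : γ ∉ φ (c 0)) (h1 : γ ∉ φ (c 1)) :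
    ∀ j : ℕ, 1 ≤ j → j ≤ m → γ ∈ φ (c ((2 * j : ℕ) : ZMod (2 * m + 1))) := by
  have h := C.hole
  have hm := h.two_le
  have hγν : γ ≠ ν := by
    rintro rfl
    have := C.odd 0 (by omega)
    simp at this
    exact h1 this
  by_cases hQ : ∀ u, Q G c 0 u → γ ∉ φ u
  · exact kone X h C.proper C.token hno C.odd C.nu hQ
  · have hQ : ∃ u, Q G c 0 u ∧ γ ∈ φ u := by
      by_contra hcon
      exact hQ fun u hu hh => hcon ⟨u, hu, hh⟩
    obtain ⟨a, ha, hγa⟩ := hQ
    have hAt : At G c a 0 := by
      rcases ha with rfl | rfl | ha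
      · exact absurd hγa h0
      · rw [zero_add] at hγa
        exact absurd hγa h1
      · exact ha
    have hγμ : γ ≠ μ := by
      rintro rfl
      exact C.mu a ha hγa
    have hatt : ∀ u s, At G c u s → μ ∉ φ u := by
      intro u s hs
      obtain ⟨l, hl, rfl⟩ := exists_cast s
      rcases Nat.even_or_odd' l with ⟨i, rfl | rfl⟩
      · rcases Nat.eq_zero_or_pos i with hi | hi
        · subst hi
          exact C.mu u (Or.inr (Or.inr (by simpa using hs)))
        · exact fun hh => C.proper _ _ hs.left _ hh (C.even i hi (by omega))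
      · have h2 := hs.right
        have h3 : ((2 * i + 1 : ℕ) : ZMod (2 * m + 1)) + 1
            = ((2 * (i + 1) : ℕ) : ZMod (2 * m + 1)) := by
          push_cast; ring
        rw [h3] at h2
        exact fun hh => C.proper _ _ h2 _ hh (C.even (i + 1) (by omega) (by omega))
    set D : V → Prop := fun v => Reach G c φ γ μ a v with hD
    have hclosed : ∀ u v, G.Adj u v → D u → (γ ∈ φ u ∨ μ ∈ φ u) → (γ ∈ φ v ∨ μ ∈ φ v) →
        D v := by
      intro u v huv hu _ hv
      by_cases hvC : ∃ x, v = c x
      · exfalso
        obtain ⟨x, rfl⟩ := hvC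
        have hout := hu.out hAt.1
        obtain ⟨s, hs⟩ := X.att m c h u hout _ huv
        have hug := tail X h C.proper hAt hγa hatt hu hs
        subst hug
        have hmu0 : μ ∉ φ (c 0) := C.mu _ (Or.inl rfl)
        have hmu1 : μ ∉ φ (c 1) := C.mu _ (Or.inr (Or.inl (by simp)))
        rcases (hAt.2 _).1 huv with e | e
        · subst e
          rcases hv with hv | hv
          · exact h0 hv
          · exact hmu0 hv
        · rw [zero_add] at e
          subst e
          rcases hv with hv | hv
          · exact h1 hv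
          · exact hmu1 hv
      · exact hu.step ⟨huv, fun x e => hvC ⟨x, e⟩, hv⟩
    have hP := sw_proper C.proper hclosed
    have hT' : Token w (c 0) (sw γ μ D φ) := fun u => by rw [sw_card]; exact C.token u
    have hDC : ∀ x, ¬ D (c x) := fun x hx => hx.out hAt.1 x rfl
    have hsame : ∀ x, sw γ μ D φ (c x) = φ (c x) := fun x => sw_out (hDC x)
    have hDa : D a := Reach.refl
    have := kone X h hP hT' hno (ν := ν) (γ := γ)
      (fun j hj => by rw [hsame]; exact C.odd j hj)
      (fun u hu => by
        rw [sw_mem_other hγν.symm C.ne.symm]; exact C.nu u hu)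
      (fun u hu hh => by
        rcases hu with rfl | rfl | hu
        · rw [hsame] at hh; exact h0 hh
        · rw [hsame, zero_add] at hh; exact h1 hh
        · by_cases hDu : D u
          · have hug := tail X h C.proper hAt hγa hatt hDu hu
            subst hug
            rw [sw_left hDu] at hh
            exact C.mu u (Or.inr (Or.inr hu)) hh
          · rw [sw_out hDu] at hh
            have hne : a ≠ u := by
              rintro rfl
              exact hDu hDa
            exact C.proper _ _ (h.q_clique X.claw ha (Or.inr (Or.inr hu)) hne) _ hγa hh)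
    intro j hj1 hj2
    have := this j hj1 hj2
    rwa [hsame] at this

end Pool.Agent.H9.IDP
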