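import Mathlib
import Pool.Agent.H9.IDP.Kempe2

set_option autoImplicit false
set_option linter.unusedSectionVars false

namespace Pool.Agent.H9.IDP

open Finset

variable {V : Type*} {K : Type*} [DecidableEq V] [DecidableEq K] {G : SimpleGraph V}
  {m : ℕ}

theorem rot (X : Ctx G) {c : ZMod (2 * m + 1) → V} {w : V → ℕ}
    {φ : V → Finset K} {μ ν : K} (C : Config G w m c φ μ ν) :
    ∃ φ' : V → Finset K, Config G w m (fun x => c (x + 1)) φ' ν μ ∧
      ∀ γ, γ ≠ ν → ∀ u, γ ∈ φ' u ↔ γ ∈ φ u := by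
  have h := C.hole
  have hm := h.two_le
  have h01 : c 0 ≠ c 1 := fun e => one_ne (m := m) hm (h.inj e).symm
  have hν1 : ν ∈ φ (c 1) := by
    have := C.odd 0 (by omega)
    simpa using this
  have hν0 : ν ∉ φ (c 0) := C.nu _ (Or.inr (Or.inl (by simp)))
  set φ' : V → Finset K := fun u =>
    if u = c 0 then insert ν (φ u) else if u = c 1 then (φ u).erase ν else φ u with hφ'
  have hoth : ∀ γ, γ ≠ ν → ∀ u, γ ∈ φ' u ↔ γ ∈ φ u := by
    intro γ hγ u
    simp only [hφ']
    split_ifs <;> simp [hγ]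
  have hnu : ∀ u, ν ∈ φ' u ↔ (u = c 0 ∨ (u ≠ c 1 ∧ ν ∈ φ u)) := by
    intro u
    simp only [hφ']
    split_ifs with h1 h2
    · simp [h1]
    · simp [h2, Ne.symm h01]
    · simp [h1, h2]
  have hprop : Proper G φ' := by
    have key : ∀ v, G.Adj (c 0) v → v ≠ c 1 → ν ∉ φ v := by
      intro v hv hv1 hh
      rcases h.nbr X.att hv with hq | hq
      · rcases hq with rfl | rfl | hq
        · exact G.loopless.irrefl _ hv
        · exact hv1 (by simp)
        · have := hq.right
          rw [zero_add] at this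
          exact C.proper _ _ this _ hh hν1
      · rw [zero_sub] at hq
        exact C.nu v hq hh
    intro u v huv x hx hx'
    by_cases hxν : x = ν
    · subst hxν
      rw [hnu] at hx hx'
      rcases hx with rfl | ⟨hx1, hx2⟩
      · rcases hx' with rfl | ⟨hx3, hx4⟩
        · exact G.loopless.irrefl _ huv
        · exact key v huv hx3 hx4
      · rcases hx' with rfl | ⟨hx3, hx4⟩
        · exact key u huv.symm hx1 hx2
        · exact C.proper _ _ huv _ hx2 hx4
    · rw [hoth x hxν] at hx hx'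
      exact C.proper _ _ huv _ hx hx'
  refine ⟨φ', ?_, hoth⟩
  refine ⟨h.shift 1, hprop, ?_, C.ne.symm, ?_, ?_, ?_, ?_⟩
  · intro u
    have := C.token u
    rw [zero_add]
    by_cases h0 : u = c 0
    · subst h0
      simp only [hφ', if_true, h01, if_false, add_zero] at this ⊢
      rw [Finset.card_insert_of_notMem hν0]
      exact this
    · by_cases h1 : u = c 1
      · subst h1
        simp only [hφ', if_true, h01.symm, if_false, add_zero] at this ⊢
        rw [Finset.card_erase_of_mem hν1]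
        have : 0 < (φ (c 1)).card := Finset.card_pos.2 ⟨ν, hν1⟩
        omega
      · simp only [hφ', h0, h1, if_false, add_zero] at this ⊢
        exact this
  · intro j hj
    have e : ((2 * j + 1 : ℕ) : ZMod (2 * m + 1)) + 1 = ((2 * (j + 1) : ℕ) : ZMod (2 * m + 1)) := by
      push_cast; ring
    rw [e, hoth μ C.ne]
    exact C.even (j + 1) (by omega) (by omega)
  · intro j hj1 hj2
    rw [hnu]
    have e : ((2 * j : ℕ) : ZMod (2 * m + 1)) + 1 = ((2 * j + 1 : ℕ) : ZMod (2 * m + 1)) := by
      push_cast; ring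
    rw [e]
    by_cases hjm : j = m
    · left
      subst hjm
      rw [cast_top]
    · right
      refine ⟨?_, C.odd j (by omega)⟩
      intro he
      have h3 : ((2 * j + 1 : ℕ) : ZMod (2 * m + 1)) = ((1 : ℕ) : ZMod (2 * m + 1)) := by
        rw [h.inj he, Nat.cast_one]
      have := (cast_inj (m := m) (by omega) (by omega)).1 h3
      omega
  · intro u hu
    rw [q_shift, zero_add] at hu
    rw [hnu]
    rintro (rfl | ⟨h1, h2⟩)
    · rcases hu with hu | hu | hu
      · exact h01 hu
      · have := h.inj hu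
        exact two_ne (m := m) hm (by linear_combination -this)
      · exact hu.1 _ rfl
    · rcases hu with rfl | rfl | hu
      · exact h1 rfl
      · exact C.proper _ _ (h.next 1) _ hν1 h2
      · exact C.proper _ _ hu.left _ h2 hν1
  · intro u hu
    rw [q_shift, neg_add_cancel] at hu
    rw [hoth μ C.ne]
    exact C.mu u hu

theorem oh_aux (X : Ctx G) {w : V → ℕ} (hno : ¬ ∃ φ' : V → Finset K, Proper G φ' ∧ Full w φ')
    (γ : K) : ∀ (n : ℕ) (c : ZMod (2 * m + 1) → V) (φ : V → Finset K) (μ ν : K),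
    Config G w m c φ μ ν → γ ≠ μ → γ ≠ ν → γ ∉ φ (c (n : ZMod (2 * m + 1))) →
    γ ∉ φ (c ((n : ZMod (2 * m + 1)) + 1)) → m ≤ ∑ x, (if γ ∈ φ (c x) then 1 else 0)
  | 0, c, φ, μ, ν, C, hμ, hν, h0, h1 => by
    rw [Nat.cast_zero] at h0 h1
    rw [zero_add] at h1
    have := kthree X C hno h0 h1
    apply le_sum_of_even
    intro j hj1 hj2
    rw [if_pos (this j hj1 hj2)]
  | n + 1, c, φ, μ, ν, C, hμ, hν, h0, h1 => by
    obtain ⟨φ', C', hφ'⟩ := rot X C
    have := oh_aux X hno γ n _ φ' ν μ C' hν hμ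
      (by rw [hφ' γ hν]; simpa using h0)
      (by rw [hφ' γ hν]; simpa [add_assoc] using h1)
    have e : ∀ x, (if γ ∈ φ' (c (x + 1)) then 1 else 0) = (if γ ∈ φ (c (x + 1)) then 1 else 0) := by
      intro x
      simp only [hφ' γ hν]
    simp only [e] at this
    rwa [sum_shift (fun x => if γ ∈ φ (c x) then 1 else 0) 1] at this

theorem config_count (X : Ctx G) {c : ZMod (2 * m + 1) → V} {w : V → ℕ}
    {φ : V → Finset K} {μ ν : K} (C : Config G w m c φ μ ν)
    (hno : ¬ ∃ φ' : V → Finset K, Proper G φ' ∧ Full w φ') (γ : K) :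
    m ≤ ∑ x, (if γ ∈ φ (c x) then 1 else 0) := by
  by_cases hμ : γ = μ
  · subst hμ
    apply le_sum_of_even
    intro j hj1 hj2
    rw [if_pos (C.even j hj1 hj2)]
  by_cases hν : γ = ν
  · subst hν
    apply le_sum_of_odd
    intro j hj1
    rw [if_pos (C.odd j hj1)]
  by_cases hex : ∃ x, γ ∉ φ (c x) ∧ γ ∉ φ (c (x + 1))
  · obtain ⟨x, h1, h2⟩ := hex
    obtain ⟨l, hl, rfl⟩ := exists_cast x
    exact oh_aux X hno γ l c φ μ ν C hμ hν h1 h2
  · apply le_sum_of_cover
    intro x
    by_contra hlt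
    apply hex
    refine ⟨x, fun h1 => ?_, fun h1 => ?_⟩
    · apply hlt; simp [h1]
    · apply hlt; simp [h1]

theorem config_false (X : Ctx G) [Fintype K] {c : ZMod (2 * m + 1) → V} {w : V → ℕ}
    {φ : V → Finset K} {μ ν : K} (C : Config G w m c φ μ ν)
    (hno : ¬ ∃ φ' : V → Finset K, Proper G φ' ∧ Full w φ')
    (hgood : ∑ x, w (c x) ≤ Fintype.card K * m) : False := by
  have h1 : ∑ x, w (c x) = ∑ x, (φ (c x)).card + 1 := by
    have : ∀ x, w (c x) = (φ (c x)).card + (if x = 0 then 1 else 0) := by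
      intro x
      rw [← C.token (c x)]
      congr 1
      simp only [C.hole.inj.eq_iff]
    simp only [this, Finset.sum_add_distrib]
    simp
  have h2 : ∑ x, (φ (c x)).card = ∑ γ : K, ∑ x, (if γ ∈ φ (c x) then 1 else 0) := by
    rw [Finset.sum_comm]
    apply Finset.sum_congr rfl
    intro x _
    rw [Finset.sum_ite_mem]
    simp
  have h3 : ∑ _γ : K, m ≤ ∑ γ : K, ∑ x, (if γ ∈ φ (c x) then 1 else 0) :=
    Finset.sum_le_sum fun γ _ => config_count X C hno γ
  simp only [sum_const, card_univ, smul_eq_mul] at h3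
  omega

theorem hv (X : Ctx G) [Fintype K] {c : ZMod (2 * m + 1) → V} (h : Hole G m c) {w : V → ℕ}
    {φ : V → Finset K} (hφ : Proper G φ) (hT : Token w (c 0) φ)
    (hno : ¬ ∃ φ' : V → Finset K, Proper G φ' ∧ Full w φ')
    (hgood : ∑ x, w (c x) ≤ Fintype.card K * m) {α β : K}
    (hα : ∀ u, Q G c 0 u → α ∉ φ u) (hβ : ∀ u, Q G c (-1) u → β ∉ φ u)
    (hc : m ≤ ∑ x, (if β ∈ φ (c x) then 1 else 0)) : False := by
  have hm := h.two_le
  have hodd : ∀ j : ℕ, j < m → β ∈ φ (c ((2 * j + 1 : ℕ) : ZMod (2 * m + 1))) := by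
    intro j hj
    have hs := sat (m := m) (fun x => if β ∈ φ (c (-x)) then 1 else 0)
      (by
        intro x
        have hadj : G.Adj (c (-(x + 1))) (c (-x)) := by
          have := h.next (-(x + 1))
          rwa [show -(x + 1) + 1 = -x by ring] at this
        by_cases h1 : β ∈ φ (c (-x))
        · have h2 : β ∉ φ (c (-(x + 1))) := hφ _ _ hadj.symm _ h1
          simp only [h1, h2, if_true, if_false, add_zero, le_refl]
        · simp only [h1, if_false, zero_add]
          split_ifs <;> omega)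
      (by
        have := hβ (c 0) (Or.inr (Or.inl (by simp)))
        simp [this])
      (by
        have := hβ (c (-1)) (Or.inl rfl)
        simp [this])
      (by rwa [sum_neg (fun x => if β ∈ φ (c x) then 1 else 0)]) (m - j) (by omega) (by omega)
    have e : -(((2 * (m - j) : ℕ) : ZMod (2 * m + 1))) = ((2 * j + 1 : ℕ) : ZMod (2 * m + 1)) := by
      have h1 : ((2 * (m - j) + (2 * j + 1) : ℕ) : ZMod (2 * m + 1)) = 0 := by
        rw [show 2 * (m - j) + (2 * j + 1) = 2 * m + 1 by omega]
        exact cast_top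
      rw [Nat.cast_add] at h1
      linear_combination -h1
    simp only [e] at hs
    by_contra hcon
    rw [if_neg hcon] at hs
    omega
  have heven := kone X h hφ hT hno hodd hβ hα
  have hne : α ≠ β := by
    rintro rfl
    apply hno
    refine add_token hφ hT (ν := α) (hα _ (Or.inl rfl)) ?_
    intro u hu
    rcases h.nbr X.att hu with hq | hq
    · exact hα u hq
    · rw [zero_sub] at hq
      exact hβ u hq
  exact config_false X ⟨h, hφ, hT, hne, hodd, heven, hα, hβ⟩ hno hgood

end Pool.Agent.H9.IDP
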