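import Mathlib
import Pool.Agent.H9.IDP.Rot

set_option autoImplicit false
set_option linter.unusedSectionVars false

namespace Pool.Agent.H9.IDP

open Finset

variable {V : Type*} [DecidableEq V] [Fintype V] {G : SimpleGraph V}

def Good (G : SimpleGraph V) (k : ℕ) (w : V → ℕ) : Prop :=
  (∀ K : Finset V, G.IsClique (K : Set V) → ∑ v ∈ K, w v ≤ k) ∧
  (∀ (m : ℕ) (c : ZMod (2 * m + 1) → V), Hole G m c → ∑ x, w (c x) ≤ k * m)

def Extract (G : SimpleGraph V) : Prop :=
  ∀ (k : ℕ) (w : V → ℕ), 1 ≤ k → Good G k w → (∃ v, w v ≠ 0) → ∃ S : Finset V,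
    (∀ u ∈ S, ∀ v ∈ S, ¬ G.Adj u v) ∧ S.Nonempty ∧ (∀ u ∈ S, 1 ≤ w u) ∧
    ∀ K : Finset V, G.IsClique (K : Set V) → ∑ v ∈ K, w v = k → ∃ u ∈ K, u ∈ S

theorem lift_colour {k : ℕ} {w w' : V → ℕ} {φ : V → Finset (Fin k)} (hφ : Proper G φ)
    (hF : Full w' φ) {S : Finset V} (hS : ∀ u ∈ S, ∀ v ∈ S, ¬ G.Adj u v)
    (hw : ∀ u, w u = w' u + if u ∈ S then 1 else 0) :
    ∃ φ' : V → Finset (Fin (k + 1)), Proper G φ' ∧ Full w φ' := by
  refine ⟨fun u => if u ∈ S then insert (Fin.last k) ((φ u).map Fin.castSuccEmb)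
    else (φ u).map Fin.castSuccEmb, ?_, ?_⟩
  · have h1 : ∀ u (x : Fin k), Fin.castSucc x ∈ (if u ∈ S then
        insert (Fin.last k) ((φ u).map Fin.castSuccEmb) else (φ u).map Fin.castSuccEmb) ↔
        x ∈ φ u := by
      intro u x
      split_ifs
      · simp [Fin.castSucc_ne_last]
      · simp
    have h2 : ∀ u, Fin.last k ∈ (if u ∈ S then
        insert (Fin.last k) ((φ u).map Fin.castSuccEmb) else (φ u).map Fin.castSuccEmb) ↔
        u ∈ S := by
      intro u
      split_ifs with h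
      · simp [h]
      · simp [h, Fin.castSucc_ne_last]
    intro u v huv x
    induction x using Fin.lastCases with
    | last =>
      intro hu hv
      rw [h2] at hu hv
      exact hS u hu v hv huv
    | cast x =>
      intro hu hv
      rw [h1] at hu hv
      exact hφ u v huv x hu hv
  · intro u
    rw [hw u, ← hF u]
    by_cases h : u ∈ S
    · simp only [h, if_true]
      rw [Finset.card_insert_of_notMem (by simp [Fin.castSucc_ne_last]), Finset.card_map]
    · simp only [h, if_false]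
      rw [Finset.card_map, add_zero]

theorem clique_card {k : ℕ} {φ : V → Finset (Fin k)} (hφ : Proper G φ) {K : Finset V}
    (hK : G.IsClique (K : Set V)) : ∑ u ∈ K, (φ u).card = (K.biUnion φ).card := by
  rw [Finset.card_biUnion]
  intro a ha b hb hab
  exact Finset.disjoint_left.2 fun x hx => hφ a b (hK ha hb hab) x hx

theorem missing {k : ℕ} {w : V → ℕ} {v : V} {φ : V → Finset (Fin k)} (hφ : Proper G φ)
    (hT : Token w v φ) {K : Finset V} (hK : G.IsClique (K : Set V)) (hv : v ∈ K)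
    (hle : ∑ u ∈ K, w u ≤ k) : ∃ α, ∀ u ∈ K, α ∉ φ u := by
  by_contra hcon
  have h1 : K.biUnion φ = univ := by
    rw [Finset.eq_univ_iff_forall]
    intro x
    rw [Finset.mem_biUnion]
    by_contra h
    exact hcon ⟨x, fun u hu hx => h ⟨u, hu, hx⟩⟩
  have h2 := clique_card hφ hK
  rw [h1, card_univ, Fintype.card_fin] at h2
  have h3 : ∑ u ∈ K, w u = ∑ u ∈ K, (φ u).card + 1 := by
    simp only [← hT _, Finset.sum_add_distrib]
    simp [hv]
  omega

theorem q_isClique {m : ℕ} {c : ZMod (2 * m + 1) → V} (h : Hole G m c) (hc : ClawFree G)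
    (s : ZMod (2 * m + 1)) [DecidablePred (Q G c s)] :
    G.IsClique ((univ.filter (Q G c s) : Finset V) : Set V) := by
  intro a ha b hb hab
  simp only [coe_filter, mem_univ, true_and, Set.mem_ofPred_eq] at ha hb
  exact h.q_clique hc ha hb hab

theorem sum_card_hole {k m : ℕ} {φ : V → Finset (Fin k)} {c : ZMod (2 * m + 1) → V} :
    ∑ x, (φ (c x)).card = ∑ γ : Fin k, ∑ x, (if γ ∈ φ (c x) then 1 else 0) := by
  rw [Finset.sum_comm]
  apply Finset.sum_congr rfl
  intro x _
  rw [Finset.sum_ite_mem]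
  simp

theorem colour_le {k m : ℕ} {φ : V → Finset (Fin k)} (hφ : Proper G φ)
    {c : ZMod (2 * m + 1) → V} (h : Hole G m c) (γ : Fin k) :
    ∑ x, (if γ ∈ φ (c x) then 1 else 0) ≤ m := by
  apply sum_le_of_stable
  intro x
  by_cases h1 : γ ∈ φ (c x)
  · have h2 : γ ∉ φ (c (x + 1)) := hφ _ _ (h.next x) _ h1
    simp only [h1, h2, if_true, if_false, add_zero, le_refl]
  · simp only [h1, if_false, zero_add]
    split_ifs <;> omega

/-- in a minimal counterexample each colour is missing on a tight clique through the token -/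
theorem tight_clique (X : Ctx G) {k : ℕ} {w : V → ℕ} (hG : Good G k w)
    (hno : ¬ ∃ φ' : V → Finset (Fin k), Proper G φ' ∧ Full w φ')
    (ih : ∀ (k' : ℕ) (w' : V → ℕ), ∑ v, w' v < ∑ v, w v → Good G k' w' →
      ∃ φ : V → Finset (Fin k'), Proper G φ ∧ Full w' φ)
    {v : V} {φ : V → Finset (Fin k)} (hφ : Proper G φ) (hT : Token w v φ) (γ : Fin k) :
    ∃ K : Finset V, G.IsClique (K : Set V) ∧ v ∈ K ∧ ∑ u ∈ K, w u = k ∧ ∀ u ∈ K, γ ∉ φ u := by
  classical
  obtain ⟨e, rfl⟩ : ∃ e, k = e + 1 := ⟨k - 1, by have := γ.2; omega⟩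
  set w' : V → ℕ := fun u => w u - (if γ ∈ φ u then 1 else 0) with hw'
  have hww : ∀ u, w u = w' u + (if γ ∈ φ u then 1 else 0) := by
    intro u
    have h1 := hT u
    simp only [hw']
    split_ifs with h
    · have : 0 < (φ u).card := Finset.card_pos.2 ⟨γ, h⟩
      omega
    · omega
  have hnotgood : ¬ Good G e w' := by
    intro hg
    have hex : ∃ u, γ ∈ φ u := by
      by_contra hcon
      exact hno (add_token hφ hT (fun h => hcon ⟨v, h⟩) (fun u _ h => hcon ⟨u, h⟩))
    obtain ⟨u₀, hu₀⟩ := hex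
    have hlt : ∑ u, w' u < ∑ u, w u := by
      apply Finset.sum_lt_sum
      · intro u _; rw [hww u]; omega
      · exact ⟨u₀, mem_univ _, by rw [hww u₀, if_pos hu₀]; omega⟩
    obtain ⟨ψ, hψ, hFψ⟩ := ih e w' hlt hg
    apply hno
    refine lift_colour hψ hFψ (S := univ.filter fun u => γ ∈ φ u) ?_ ?_
    · intro a ha b hb hab
      simp only [mem_filter, mem_univ, true_and] at ha hb
      exact hφ a b hab γ ha hb
    · intro u
      rw [hww u]
      simp
  have htwo : (∃ K : Finset V, G.IsClique (K : Set V) ∧ e < ∑ v ∈ K, w' v) ∨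
      (∃ (m : ℕ) (c : ZMod (2 * m + 1) → V), Hole G m c ∧ e * m < ∑ x, w' (c x)) := by
    by_contra hcon
    apply hnotgood
    refine ⟨fun K hK => ?_, fun m c hc => ?_⟩
    · by_contra hlt
      exact hcon (Or.inl ⟨K, hK, by omega⟩)
    · by_contra hlt
      exact hcon (Or.inr ⟨m, c, hc, by omega⟩)
  rcases htwo with ⟨K, hK, hlt⟩ | ⟨m, c, hc, hlt⟩
  · have h1 := hG.1 K hK
    have h2 : ∑ u ∈ K, w u = ∑ u ∈ K, w' u + ∑ u ∈ K, (if γ ∈ φ u then 1 else 0) := by
      rw [← Finset.sum_add_distrib]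
      exact Finset.sum_congr rfl fun u _ => hww u
    have h3 : ∑ u ∈ K, (if γ ∈ φ u then 1 else 0) = 0 := by omega
    have h4 : ∀ u ∈ K, γ ∉ φ u := by
      intro u hu hh
      have := (Finset.sum_eq_zero_iff.1 h3) u hu
      simp [hh] at this
    have h5 : ∑ u ∈ K, w u = e + 1 := by omega
    refine ⟨K, hK, ?_, h5, h4⟩
    by_contra hv
    have h6 : ∑ u ∈ K, w u = ∑ u ∈ K, (φ u).card := by
      apply Finset.sum_congr rfl
      intro u hu
      rw [← hT u, if_neg, add_zero]
      rintro rfl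
      exact hv hu
    rw [clique_card hφ hK] at h6
    have h7 : (K.biUnion φ) ⊆ univ.erase γ := by
      intro x hx
      rw [Finset.mem_biUnion] at hx
      obtain ⟨u, hu, hxu⟩ := hx
      refine Finset.mem_erase.2 ⟨?_, mem_univ _⟩
      rintro rfl
      exact h4 u hu hxu
    have h8 := Finset.card_le_card h7
    rw [Finset.card_erase_of_mem (mem_univ _), card_univ, Fintype.card_fin] at h8
    omega
  · exfalso
    have h2 : ∑ x, w (c x) = ∑ x, w' (c x) + ∑ x, (if γ ∈ φ (c x) then 1 else 0) := by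
      rw [← Finset.sum_add_distrib]
      exact Finset.sum_congr rfl fun x _ => hww (c x)
    have h3 : ∑ x, w (c x) = ∑ x, (φ (c x)).card + ∑ x, (if c x = v then 1 else 0) := by
      rw [← Finset.sum_add_distrib]
      exact Finset.sum_congr rfl fun x _ => (hT (c x)).symm
    rw [sum_card_hole, ← Finset.add_sum_erase univ _ (mem_univ γ)] at h3
    have h4 : ∑ x, (if c x = v then 1 else 0) ≤ 1 := by
      rw [Finset.sum_boole]
      simp only [Nat.cast_id]
      apply Finset.card_le_one.2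
      intro a ha b hb
      simp only [mem_filter, mem_univ, true_and] at ha hb
      exact hc.inj (ha.trans hb.symm)
    have h5 : ∀ δ ∈ univ.erase γ, ∑ x, (if δ ∈ φ (c x) then 1 else 0) ≤ m :=
      fun δ _ => colour_le hφ hc δ
    have h6 : ∑ _δ ∈ univ.erase γ, m = e * m := by
      rw [Finset.sum_const, Finset.card_erase_of_mem (mem_univ _), card_univ, Fintype.card_fin,
        smul_eq_mul, Nat.add_sub_cancel]
    have h7 := Finset.sum_le_sum h5
    have h8 : ∀ δ, δ ≠ γ → m ≤ ∑ x, (if δ ∈ φ (c x) then 1 else 0) := by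
      intro δ hδ
      by_contra hlt'
      have : ∑ δ ∈ univ.erase γ, ∑ x, (if δ ∈ φ (c x) then 1 else 0) < ∑ _δ ∈ univ.erase γ, m :=
        Finset.sum_lt_sum h5 ⟨δ, Finset.mem_erase.2 ⟨hδ, mem_univ _⟩, by omega⟩
      omega
    have h9 : ∃ x₀, c x₀ = v := by
      by_contra hcon
      have : ∑ x, (if c x = v then 1 else 0) = 0 := by
        apply Finset.sum_eq_zero
        intro x _
        rw [if_neg]
        exact fun hh => hcon ⟨x, hh⟩
      omega
    obtain ⟨x₀, rfl⟩ := h9
    set d : ZMod (2 * m + 1) → V := fun x => c (x + x₀) with hd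
    have hdh : Hole G m d := hc.shift x₀
    have hd0 : d 0 = c x₀ := by simp [hd]
    have h8' : ∀ δ, δ ≠ γ → m ≤ ∑ x, (if δ ∈ φ (d x) then 1 else 0) := by
      intro δ hδ
      have := h8 δ hδ
      rwa [← sum_shift (fun x => if δ ∈ φ (c x) then 1 else 0) x₀] at this
    have hTd : Token w (d 0) φ := hd0 ▸ hT
    have hgood : ∑ x, w (d x) ≤ Fintype.card (Fin (e + 1)) * m := by
      rw [Fintype.card_fin]
      exact hG.2 m d hdh
    obtain ⟨α, hα⟩ := missing hφ hTd (q_isClique hdh X.claw 0)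
      (by simp only [mem_filter, mem_univ, true_and]; exact Or.inl rfl)
      (hG.1 _ (q_isClique hdh X.claw 0))
    obtain ⟨β, hβ⟩ := missing hφ hTd (q_isClique hdh X.claw (-1))
      (by simp only [mem_filter, mem_univ, true_and]; exact Or.inr (Or.inl (by simp)))
      (hG.1 _ (q_isClique hdh X.claw (-1)))
    have hα' : ∀ u, Q G d 0 u → α ∉ φ u := fun u hu => hα u (by simpa using hu)
    have hβ' : ∀ u, Q G d (-1) u → β ∉ φ u := fun u hu => hβ u (by simpa using hu)
    by_cases hβγ : β = γ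
    · by_cases hαγ : α = γ
      · apply hno
        refine add_token hφ hTd (ν := γ) ?_ ?_
        · rw [← hαγ]; exact hα' _ (Or.inl rfl)
        · intro u hu
          rcases hdh.nbr X.att hu with hq | hq
          · rw [← hαγ]; exact hα' u hq
          · rw [zero_sub] at hq
            rw [← hβγ]; exact hβ' u hq
      · refine hv X hdh.neg hφ (w := w) (by simpa using hTd) hno ?_ (α := β) (β := α) ?_ ?_ ?_
        · rw [sum_neg (fun x => w (d x))]; exact hgood
        · intro u hu
          rw [q_neg] at hu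
          exact hβ' u (by simpa using hu)
        · intro u hu
          rw [q_neg] at hu
          exact hα' u (by simpa using hu)
        · rw [sum_neg (fun x => if α ∈ φ (d x) then 1 else 0)]
          exact h8' α hαγ
    · exact hv X hdh hφ hTd hno hgood hα' hβ' (h8' β hβγ)

end Pool.Agent.H9.IDP
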