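import Mathlib
import Pool.Agent.H9.IDP.Core

set_option autoImplicit false
set_option linter.unusedSectionVars false

namespace Pool.Agent.H9.IDP

open Finset

variable {V : Type*} [DecidableEq V] [Fintype V] {G : SimpleGraph V}

theorem triangle {w : V → ℕ} (hw1 : ∀ v, w v ≤ 1) {K : Finset V} (hK : G.IsClique (K : Set V))
    {v : V} (hv : v ∈ K) (hwv : w v = 1) (hs : ∑ u ∈ K, w u = 3) :
    ∃ u₁ ∈ K, ∃ u₂ ∈ K, w u₁ = 1 ∧ w u₂ = 1 ∧ G.Adj v u₁ ∧ G.Adj v u₂ ∧ G.Adj u₁ u₂ := by
  have h1 : ∑ u ∈ K.erase v, w u = 2 := by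
    have := Finset.add_sum_erase K w hv
    omega
  have h2 : ∑ u ∈ K.erase v, w u = ((K.erase v).filter fun u => w u = 1).card := by
    rw [Finset.card_filter]
    apply Finset.sum_congr rfl
    intro u _
    have := hw1 u
    split_ifs <;> omega
  rw [h1] at h2
  obtain ⟨a, b, hab, he⟩ := Finset.card_eq_two.1 h2.symm
  have ha : a ∈ (K.erase v).filter fun u => w u = 1 := by rw [he]; simp
  have hb : b ∈ (K.erase v).filter fun u => w u = 1 := by rw [he]; simp
  simp only [mem_filter, mem_erase] at ha hb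
  exact ⟨a, ha.1.2, b, hb.1.2, ha.2, hb.2, hK hv ha.1.2 ha.1.1.symm, hK hv hb.1.2 hb.1.1.symm,
    hK ha.1.2 hb.1.2 hab⟩

theorem uniq {w : V → ℕ} (X : Ctx G) (hG : Good G 3 w) {m : ℕ} {c : ZMod (2 * m + 1) → V}
    (h : Hole G m c) (hwc : ∀ x, w (c x) = 1) {s : ZMod (2 * m + 1)} {a a' : V}
    (ha : At G c a s) (ha' : At G c a' s) (hwa : w a = 1) (hwa' : w a' = 1) : a = a' := by
  by_contra hne
  have hm := h.two_le
  have hs : c s ≠ c (s + 1) := (h.next s).ne
  have hcl : G.IsClique (({c s, c (s + 1), a, a'} : Finset V) : Set V) := by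
    have hQ : ∀ u ∈ ({c s, c (s + 1), a, a'} : Finset V), Q G c s u := by
      intro u hu
      simp only [mem_insert, mem_singleton] at hu
      rcases hu with rfl | rfl | rfl | rfl
      · exact Or.inl rfl
      · exact Or.inr (Or.inl rfl)
      · exact Or.inr (Or.inr ha)
      · exact Or.inr (Or.inr ha')
    intro x hx y hy hxy
    exact h.q_clique X.claw (hQ x hx) (hQ y hy) hxy
  have := hG.1 _ hcl
  rw [Finset.sum_insert, Finset.sum_insert, Finset.sum_insert, Finset.sum_singleton, hwc, hwc,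
    hwa, hwa'] at this
  · omega
  · simpa using hne
  · simp only [mem_insert, mem_singleton, not_or]
    exact ⟨(ha.1 _).symm, (ha'.1 _).symm⟩
  · simp only [mem_insert, mem_singleton, not_or]
    exact ⟨hs, (ha.1 _).symm, (ha'.1 _).symm⟩

theorem endgame (X : Ctx G) {w : V → ℕ} (hG : Good G 3 w) (hw1 : ∀ v, w v ≤ 1) {m : ℕ}
    {c : ZMod (2 * m + 1) → V} (h : Hole G m c) {φ : V → Finset (Fin 3)} (hφ : Proper G φ)
    (hT : Token w (c 0) φ) (hwc : ∀ x, w (c x) = 1)
    (hK : ∀ γ : Fin 3, ∃ K : Finset V, G.IsClique (K : Set V) ∧ c 0 ∈ K ∧ ∑ u ∈ K, w u = 3 ∧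
      ∀ u ∈ K, γ ∉ φ u)
    {S : Finset V} (hS : ∀ u ∈ S, ∀ v ∈ S, ¬ G.Adj u v) (hSC : ∀ x, c x ∉ S)
    (hST : ∀ K : Finset V, G.IsClique (K : Set V) → ∑ v ∈ K, w v = 3 → ∃ u ∈ K, u ∈ S) :
    False := by
  have hm := h.two_le
  have n01 : (0 : ZMod (2 * m + 1)) ≠ 1 := (one_ne hm).symm
  have n2 := two_ne (m := m) hm
  have n3 := three_ne (m := m) hm
  have hcard : ∀ u, u ≠ c 0 → (φ u).card = w u := by
    intro u hu
    have := hT u
    rw [if_neg hu, add_zero] at this
    exact this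
  have hc10 : c 1 ≠ c 0 := fun e => n01 (h.inj e).symm
  have hcm0 : c (-1) ≠ c 0 := fun e => n01 (by linear_combination h.inj e)
  -- the possible positions
  have hpos : ∀ u, G.Adj (c 0) u → u = c 1 ∨ At G c u 0 ∨ u = c (-1) ∨ At G c u (-1) := by
    intro u hu
    rcases h.nbr X.att hu with hq | hq
    · rcases hq with rfl | rfl | hq
      · exact absurd hu (G.loopless.irrefl _)
      · left; rw [zero_add]
      · right; left; exact hq
    · rw [zero_sub] at hq
      rcases hq with rfl | rfl | hq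
      · right; right; left; rfl
      · rw [neg_add_cancel] at hu
        exact absurd hu (G.loopless.irrefl _)
      · right; right; right; exact hq
  have nadj1 : ¬ G.Adj (c 1) (c (-1)) := by
    rw [h.adj]
    rintro (e | e)
    · exact n3 (by linear_combination -e)
    · exact n01 (by linear_combination -e)
  have nadj2 : ∀ a, At G c a 0 → ¬ G.Adj a (c (-1)) := by
    intro a ha
    rw [ha.2]
    rintro (e | e)
    · exact n01 (by linear_combination e)
    · exact n2 (by linear_combination -e)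
  have nadj3 : ∀ b, At G c b (-1) → ¬ G.Adj b (c 1) := by
    intro a ha
    rw [ha.2]
    rintro (e | e)
    · exact n2 (by linear_combination e)
    · exact n01 (by linear_combination -e)
  have hφc1 : (φ (c 1)).card = 1 := by rw [hcard _ hc10, hwc]
  have hφcm : (φ (c (-1))).card = 1 := by rw [hcard _ hcm0, hwc]
  obtain ⟨p, hp⟩ := Finset.card_pos.1 (by rw [hφc1]; exact Nat.one_pos)
  obtain ⟨q, hq⟩ := Finset.card_pos.1 (by rw [hφcm]; exact Nat.one_pos)
  -- existence of b
  have hb : ∃ b, At G c b (-1) ∧ w b = 1 := by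
    obtain ⟨K, hKc, h0K, hKs, hKp⟩ := hK p
    obtain ⟨u₁, hu₁, u₂, hu₂, hw₁, hw₂, ha₁, ha₂, ha⟩ := triangle hw1 hKc h0K (hwc 0) hKs
    rcases hpos u₁ ha₁ with rfl | h1 | rfl | h1
    · exact absurd hp (hKp _ hu₁)
    · rcases hpos u₂ ha₂ with rfl | h2 | rfl | h2
      · exact absurd hp (hKp _ hu₂)
      · exact absurd (uniq X hG h hwc h1 h2 hw₁ hw₂) ha.ne
      · exact absurd ha (nadj2 _ h1)
      · exact ⟨u₂, h2, hw₂⟩
    · rcases hpos u₂ ha₂ with rfl | h2 | rfl | h2
      · exact absurd hp (hKp _ hu₂)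
      · exact absurd ha.symm (nadj2 _ h2)
      · exact absurd rfl ha.ne
      · exact ⟨u₂, h2, hw₂⟩
    · exact ⟨u₁, h1, hw₁⟩
  have ha : ∃ a, At G c a 0 ∧ w a = 1 := by
    obtain ⟨K, hKc, h0K, hKs, hKp⟩ := hK q
    obtain ⟨u₁, hu₁, u₂, hu₂, hw₁, hw₂, ha₁, ha₂, ha⟩ := triangle hw1 hKc h0K (hwc 0) hKs
    rcases hpos u₁ ha₁ with rfl | h1 | rfl | h1
    · rcases hpos u₂ ha₂ with rfl | h2 | rfl | h2
      · exact absurd rfl ha.ne
      · exact ⟨u₂, h2, hw₂⟩
      · exact absurd hq (hKp _ hu₂)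
      · exact absurd ha.symm (nadj3 _ h2)
    · exact ⟨u₁, h1, hw₁⟩
    · exact absurd hq (hKp _ hu₁)
    · rcases hpos u₂ ha₂ with rfl | h2 | rfl | h2
      · exact absurd ha (nadj3 _ h1)
      · exact ⟨u₂, h2, hw₂⟩
      · exact absurd hq (hKp _ hu₂)
      · exact absurd (uniq X hG h hwc h1 h2 hw₁ hw₂) ha.ne
  obtain ⟨a, hAa, hwa⟩ := ha
  obtain ⟨b, hAb, hwb⟩ := hb
  -- S contains a and b
  have hSt : ∀ u u', G.Adj (c 0) u → G.Adj (c 0) u' → G.Adj u u' → w u = 1 → w u' = 1 →
      u ∈ S ∨ u' ∈ S := by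
    intro u u' h1 h2 h3 h4 h5
    have hcl : G.IsClique (({c 0, u, u'} : Finset V) : Set V) := by
      intro x hx y hy hxy
      simp only [coe_insert, coe_singleton, Set.mem_insert_iff, Set.mem_singleton_iff] at hx hy
      rcases hx with rfl | rfl | rfl <;> rcases hy with rfl | rfl | rfl <;>
        first | exact absurd rfl hxy | assumption | (apply SimpleGraph.Adj.symm; assumption)
    have hsum : ∑ v ∈ ({c 0, u, u'} : Finset V), w v = 3 := by
      have e1 : c 0 ∉ ({u, u'} : Finset V) := by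
        simp only [mem_insert, mem_singleton, not_or]
        exact ⟨h1.ne, h2.ne⟩
      have e2 : u ∉ ({u'} : Finset V) := by
        simp only [mem_singleton]
        exact h3.ne
      rw [Finset.sum_insert e1, Finset.sum_insert e2, Finset.sum_singleton, hwc, h4, h5]
      norm_num
    obtain ⟨x, hx, hxS⟩ := hST _ hcl hsum
    simp only [mem_insert, mem_singleton] at hx
    rcases hx with rfl | rfl | rfl
    · exact absurd hxS (hSC 0)
    · exact Or.inl hxS
    · exact Or.inr hxS
  have h0a : G.Adj (c 0) a := hAa.left.symm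
  have h1a : G.Adj (c 1) a := by
    have := hAa.right.symm
    rwa [zero_add] at this
  have hma : G.Adj (c (-1)) b := hAb.left.symm
  have h0b : G.Adj (c 0) b := by
    have := hAb.right.symm
    rwa [neg_add_cancel] at this
  have h01 : G.Adj (c 0) (c 1) := by
    have := h.next 0
    rwa [zero_add] at this
  have h0m : G.Adj (c 0) (c (-1)) := by
    have := h.next (-1)
    rw [neg_add_cancel] at this
    exact this.symm
  have haS : a ∈ S := by
    rcases hSt (c 1) a h01 h0a h1a (hwc 1) hwa with h' | h'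
    · exact absurd h' (hSC 1)
    · exact h'
  have hbS : b ∈ S := by
    rcases hSt (c (-1)) b h0m h0b hma (hwc _) hwb with h' | h'
    · exact absurd h' (hSC _)
    · exact h'
  have nadj4 : ¬ G.Adj a b := hS a haS b hbS
  -- dichotomy
  have hdich : ∀ γ, (γ ∉ φ (c 1) ∧ γ ∉ φ a) ∨ (γ ∉ φ (c (-1)) ∧ γ ∉ φ b) := by
    intro γ
    obtain ⟨K, hKc, h0K, hKs, hKp⟩ := hK γ
    obtain ⟨u₁, hu₁, u₂, hu₂, hw₁, hw₂, ha₁, ha₂, hadj⟩ := triangle hw1 hKc h0K (hwc 0) hKs
    have hpos' : ∀ u, G.Adj (c 0) u → w u = 1 → u = c 1 ∨ u = a ∨ u = c (-1) ∨ u = b := by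
      intro u hu hwu
      rcases hpos u hu with h' | h' | h' | h'
      · exact Or.inl h'
      · exact Or.inr (Or.inl (uniq X hG h hwc h' hAa hwu hwa))
      · exact Or.inr (Or.inr (Or.inl h'))
      · exact Or.inr (Or.inr (Or.inr (uniq X hG h hwc h' hAb hwu hwb)))
    have g1 := hKp _ hu₁
    have g2 := hKp _ hu₂
    rcases hpos' u₁ ha₁ hw₁ with rfl | rfl | rfl | rfl <;>
      rcases hpos' u₂ ha₂ hw₂ with rfl | rfl | rfl | rfl
    · exact absurd rfl hadj.ne
    · exact Or.inl ⟨g1, g2⟩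
    · exact absurd hadj nadj1
    · exact absurd hadj.symm (nadj3 _ hAb)
    · exact Or.inl ⟨g2, g1⟩
    · exact absurd rfl hadj.ne
    · exact absurd hadj (nadj2 _ hAa)
    · exact absurd hadj nadj4
    · exact absurd hadj.symm nadj1
    · exact absurd hadj.symm (nadj2 _ hAa)
    · exact absurd rfl hadj.ne
    · exact Or.inr ⟨g1, g2⟩
    · exact absurd hadj (nadj3 _ hAb)
    · exact absurd hadj.symm nadj4
    · exact Or.inr ⟨g2, g1⟩
    · exact absurd rfl hadj.ne
  have hφa : (φ a).card = 1 := by rw [hcard _ (hAa.1 0), hwa]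
  have hφb : (φ b).card = 1 := by rw [hcard _ (hAb.1 0), hwb]
  obtain ⟨r, hr⟩ := Finset.card_pos.1 (by rw [hφa]; exact Nat.one_pos)
  have hpr : p ≠ r := by
    rintro rfl
    exact hφ _ _ h1a _ hp hr
  have e1 : p ∉ φ (c (-1)) ∧ p ∉ φ b := by
    rcases hdich p with h' | h'
    · exact absurd hp h'.1
    · exact h'
  have e2 : r ∉ φ (c (-1)) ∧ r ∉ φ b := by
    rcases hdich r with h' | h'
    · exact absurd hr h'.2
    · exact h'
  have hdisj : Disjoint (φ (c (-1))) (φ b) :=
    Finset.disjoint_left.2 fun x hx => hφ _ _ hma x hx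
  have hsub : φ (c (-1)) ∪ φ b ⊆ (univ.erase p).erase r := by
    intro x hx
    rw [Finset.mem_erase, Finset.mem_erase]
    rw [Finset.mem_union] at hx
    refine ⟨?_, ?_, mem_univ _⟩
    · rintro rfl
      rcases hx with hx | hx
      · exact e2.1 hx
      · exact e2.2 hx
    · rintro rfl
      rcases hx with hx | hx
      · exact e1.1 hx
      · exact e1.2 hx
  have hcd := Finset.card_le_card hsub
  rw [Finset.card_union_of_disjoint hdisj, hφcm, hφb,
    Finset.card_erase_of_mem (Finset.mem_erase.2 ⟨hpr.symm, mem_univ _⟩),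
    Finset.card_erase_of_mem (mem_univ _), card_univ, Fintype.card_fin] at hcd
  omega

theorem core (X : Ctx G) (hE : Extract G) : ∀ (N k : ℕ) (w : V → ℕ), ∑ v, w v = N → Good G k w →
    ∃ φ : V → Finset (Fin k), Proper G φ ∧ Full w φ := by
  intro N
  induction N using Nat.strong_induction_on with
  | _ N ihN =>
  intro k w hN hG
  by_contra hno
  have ih : ∀ (k' : ℕ) (w' : V → ℕ), ∑ v, w' v < ∑ v, w v → Good G k' w' →
      ∃ φ : V → Finset (Fin k'), Proper G φ ∧ Full w' φ := by
    intro k' w' hlt hg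
    exact ihN _ (by omega) k' w' rfl hg
  -- not all weights vanish
  have hex : ∃ v, w v ≠ 0 := by
    by_contra hcon
    apply hno
    refine ⟨fun _ => ∅, fun u v _ x hx => by simp at hx, fun v => ?_⟩
    have : w v = 0 := by
      by_contra h
      exact hcon ⟨v, h⟩
    simp [this]
  -- token states
  have htok : ∀ v, w v ≠ 0 → ∃ φ : V → Finset (Fin k), Proper G φ ∧ Token w v φ := by
    intro v hv
    set w' : V → ℕ := fun u => w u - (if u = v then 1 else 0) with hw'
    have hww : ∀ u, w u = w' u + (if u = v then 1 else 0) := by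
      intro u
      simp only [hw']
      split_ifs with h
      · subst h; omega
      · omega
    have hle : ∀ u, w' u ≤ w u := fun u => by rw [hww u]; omega
    obtain ⟨φ, h1, h2⟩ := ih k w'
      (Finset.sum_lt_sum (fun u _ => hle u) ⟨v, mem_univ _, by rw [hww v, if_pos rfl]; omega⟩)
      ⟨fun K hK => le_trans (Finset.sum_le_sum fun u _ => hle u) (hG.1 K hK),
        fun m c hc => le_trans (Finset.sum_le_sum fun x _ => hle (c x)) (hG.2 m c hc)⟩
    exact ⟨φ, h1, fun u => by rw [h2 u, hww u]⟩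
  have hw1 : ∀ v, w v ≤ 1 := by
    intro v
    by_cases hv : w v = 0
    · omega
    · obtain ⟨φ, h1, h2⟩ := htok v hv
      have h3 : φ v = ∅ := by
        rw [Finset.eq_empty_iff_forall_notMem]
        intro γ
        obtain ⟨K, _, hvK, _, hK⟩ := tight_clique X hG hno ih h1 h2 γ
        exact hK v hvK
      have := h2 v
      rw [h3] at this
      simp at this
      omega
  have hk : 1 ≤ k := by
    obtain ⟨v, hv⟩ := hex
    have := hG.1 {v} (by simp)
    simp at this
    omega
  obtain ⟨S, hS, ⟨s₀, hs₀⟩, hSw, hST⟩ := hE k w hk hG hex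
  obtain ⟨e, rfl⟩ : ∃ e, k = e + 1 := ⟨k - 1, by omega⟩
  set w' : V → ℕ := fun u => w u - (if u ∈ S then 1 else 0) with hw'
  have hww : ∀ u, w u = w' u + (if u ∈ S then 1 else 0) := by
    intro u
    simp only [hw']
    split_ifs with h
    · have := hSw u h; omega
    · omega
  have hcl : ∀ K : Finset V, G.IsClique (K : Set V) → ∑ u ∈ K, w' u ≤ e := by
    intro K hK
    by_contra hlt
    have h1 := hG.1 K hK
    have h2 : ∑ u ∈ K, w u = ∑ u ∈ K, w' u + ∑ u ∈ K, (if u ∈ S then 1 else 0) := by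
      rw [← Finset.sum_add_distrib]
      exact Finset.sum_congr rfl fun u _ => hww u
    obtain ⟨u, huK, huS⟩ := hST K hK (by omega)
    have h3 : 1 ≤ ∑ u ∈ K, (if u ∈ S then 1 else 0) := by
      have := Finset.single_le_sum (f := fun u => if u ∈ S then 1 else 0)
        (fun i _ => Nat.zero_le _) huK
      simpa [huS] using this
    omega
  have hnotgood : ¬ Good G e w' := by
    intro hg
    obtain ⟨ψ, hψ, hFψ⟩ := ih e w'
      (Finset.sum_lt_sum (fun u _ => by rw [hww u]; omega)
        ⟨s₀, mem_univ _, by rw [hww s₀, if_pos hs₀]; omega⟩) hg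
    exact hno (lift_colour hψ hFψ hS hww)
  have hhole : ∃ (m : ℕ) (c : ZMod (2 * m + 1) → V), Hole G m c ∧ e * m < ∑ x, w' (c x) := by
    by_contra hcon
    apply hnotgood
    refine ⟨hcl, fun m c hc => ?_⟩
    by_contra hlt
    exact hcon ⟨m, c, hc, by omega⟩
  obtain ⟨m, c, hc, hlt⟩ := hhole
  have hm := hc.two_le
  have hle1 : ∀ u, w' u ≤ 1 := fun u => by have := hw1 u; rw [hww u] at this; omega
  have hedge : ∀ x, w' (c x) + w' (c (x + 1)) ≤ e := by
    intro x
    have hadj := hc.next x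
    have := hcl {c x, c (x + 1)} (by
      intro a ha b hb hab
      simp only [coe_insert, coe_singleton, Set.mem_insert_iff, Set.mem_singleton_iff] at ha hb
      rcases ha with rfl | rfl <;> rcases hb with rfl | rfl <;>
        first | exact absurd rfl hab | assumption | (apply SimpleGraph.Adj.symm; assumption))
    rwa [Finset.sum_pair hadj.ne] at this
  have hE1 : ∑ x, (w' (c x) + w' (c (x + 1))) ≤ ∑ _x : ZMod (2 * m + 1), e :=
    Finset.sum_le_sum fun x _ => hedge x
  rw [Finset.sum_add_distrib, sum_shift (fun x => w' (c x)) 1] at hE1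
  simp only [sum_const, card_univ, ZMod.card, smul_eq_mul] at hE1
  have hE2 : ∑ x, w' (c x) ≤ ∑ _x : ZMod (2 * m + 1), 1 :=
    Finset.sum_le_sum fun x _ => hle1 (c x)
  simp only [sum_const, card_univ, ZMod.card, smul_eq_mul, mul_one] at hE2
  have he2 : e = 2 := by
    have h2 : 2 ≤ e := by
      by_contra hlt2
      have : e = 0 ∨ e = 1 := by omega
      rcases this with rfl | rfl <;> omega
    have h3 : e ≤ 2 := by
      by_contra hlt2
      have : 3 * m ≤ e * m := Nat.mul_le_mul_right m (by omega)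
      omega
    omega
  subst he2
  have hall : ∀ x, w' (c x) = 1 := by
    intro x
    by_contra hne
    have : ∑ x, w' (c x) < ∑ _x : ZMod (2 * m + 1), 1 :=
      Finset.sum_lt_sum (fun x _ => hle1 (c x)) ⟨x, mem_univ _, by have := hle1 (c x); omega⟩
    simp only [sum_const, card_univ, ZMod.card, smul_eq_mul, mul_one] at this
    omega
  have hwc : ∀ x, w (c x) = 1 := by
    intro x
    have h1 := hall x
    have h2 := hw1 (c x)
    rw [hww (c x)] at h2 ⊢
    omega
  have hSC : ∀ x, c x ∉ S := by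
    intro x hx
    have h1 := hall x
    have h2 := hwc x
    rw [hww (c x), if_pos hx] at h2
    omega
  obtain ⟨φ, h1, h2⟩ := htok (c 0) (by rw [hwc 0]; exact one_ne_zero)
  exact endgame X hG hw1 hc h1 h2 hwc (fun γ => tight_clique X hG hno ih h1 h2 γ) hS hSC hST

end Pool.Agent.H9.IDP
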