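import Mathlib
import Pool.Agent.H9.IDP.Hole

set_option autoImplicit false
set_option linter.unusedSectionVars false

namespace Pool.Agent.H9.IDP

open Finset

variable {V : Type*} [DecidableEq V] {G : SimpleGraph V}

theorem edge_le {y : V → ℝ} (hcl : ∀ K : Finset V, G.IsClique (K : Set V) → ∑ v ∈ K, y v ≤ 1)
    {a b : V} (h : G.Adj a b) : y a + y b ≤ 1 := by
  have := hcl {a, b} (by
    intro x hx z hz hxz
    simp only [coe_insert, coe_singleton, Set.mem_insert_iff, Set.mem_singleton_iff] at hx hz
    rcases hx with rfl | rfl <;> rcases hz with rfl | rfl <;>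
      first | exact absurd rfl hxz | assumption | (apply SimpleGraph.Adj.symm; assumption))
  rwa [Finset.sum_pair h.ne] at this

/-- reduction of the odd cycle inequalities to those of the induced ones -/
theorem cr {y : V → ℝ} (hcl : ∀ K : Finset V, G.IsClique (K : Set V) → ∑ v ∈ K, y v ≤ 1)
    (hh : ∀ (m : ℕ) (c : ZMod (2 * m + 1) → V), Hole G m c → ∑ x, y (c x) ≤ (m : ℝ)) :
    ∀ (m : ℕ) (c : ZMod (2 * m + 1) → V), 1 ≤ m → Function.Injective c →
      (∀ x, G.Adj (c x) (c (x + 1))) → ∑ x, y (c x) ≤ (m : ℝ) := by
  intro m
  induction m using Nat.strong_induction_on with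
  | _ m ih =>
  intro c hm hinj hadj
  by_cases hch : ∀ x z, G.Adj (c x) (c z) → z = x + 1 ∨ x = z + 1
  · rcases Nat.lt_or_ge m 2 with h2 | h2
    · have hm1 : m = 1 := by omega
      subst hm1
      have h3 : ∀ x z : ZMod (2 * 1 + 1), x ≠ z → z = x + 1 ∨ x = z + 1 := by decide
      have := hcl (univ.map ⟨c, hinj⟩) (by
        intro a ha b hb hab
        simp only [coe_map, Function.Embedding.coeFn_mk, coe_univ, Set.image_univ,
          Set.mem_range] at ha hb
        obtain ⟨x, rfl⟩ := ha
        obtain ⟨z, rfl⟩ := hb
        rcases h3 x z (fun e => hab (by rw [e])) with e | e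
        · rw [e]; exact hadj x
        · rw [e]; exact (hadj z).symm)
      rw [Finset.sum_map] at this
      simpa using this
    · refine hh m c ⟨h2, hinj, fun x z => ⟨hch x z, ?_⟩⟩
      rintro (rfl | rfl)
      · exact hadj x
      · exact (hadj z).symm
  · -- a chord; rotate it to `0`, `2a`
    have key : ∀ (c : ZMod (2 * m + 1) → V), Function.Injective c →
        (∀ x, G.Adj (c x) (c (x + 1))) → ∀ a : ℕ, 1 ≤ a → a < m →
        G.Adj (c 0) (c ((2 * a : ℕ) : ZMod (2 * m + 1))) → ∑ x, y (c x) ≤ (m : ℝ) := by
      intro c hinj hadj a ha1 ham hc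
      have hsub := ih a ham (fun t => c ((ZMod.val t : ℕ) : ZMod (2 * m + 1))) ha1
        (by
          intro s t hst
          have h1 := hinj hst
          have hs := ZMod.val_lt s
          have ht := ZMod.val_lt t
          have := (cast_inj (m := m) (by omega) (by omega)).1 h1
          exact ZMod.val_injective _ this)
        (by
          intro t
          obtain ⟨l, hl, rfl⟩ := exists_cast t
          have e1 : ZMod.val ((l : ℕ) : ZMod (2 * a + 1)) = l := ZMod.val_cast_of_lt hl
          rw [e1]
          by_cases hl2 : l + 1 < 2 * a + 1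
          · have e2 : ZMod.val (((l : ℕ) : ZMod (2 * a + 1)) + 1) = l + 1 := by
              have := ZMod.val_cast_of_lt hl2
              push_cast at this
              exact this
            rw [e2]
            push_cast
            exact hadj _
          · have hl3 : l = 2 * a := by omega
            subst hl3
            have e2 : ((2 * a : ℕ) : ZMod (2 * a + 1)) + 1 = 0 := by
              have := cast_top (m := a)
              push_cast at this ⊢
              exact this
            rw [e2, ZMod.val_zero, Nat.cast_zero]
            exact hc.symm)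
      rw [sum_zmod] at hsub ⊢
      have e1 : ∑ i ∈ range (2 * a + 1),
          y (c ((ZMod.val ((i : ℕ) : ZMod (2 * a + 1)) : ℕ) : ZMod (2 * m + 1)))
          = ∑ i ∈ range (2 * a + 1), y (c ((i : ℕ) : ZMod (2 * m + 1))) := by
        apply Finset.sum_congr rfl
        intro i hi
        rw [ZMod.val_cast_of_lt (mem_range.1 hi)]
      rw [e1] at hsub
      have e5 : range (2 * m + 1) = range ((2 * a + 1) + 2 * (m - a)) := by
        congr 1; omega
      rw [e5, Finset.sum_range_add]
      have e2 := pair_bound (fun i => y (c ((i : ℕ) : ZMod (2 * m + 1)))) 1 (2 * a + 1) (m - a)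
        (by
          intro i hi
          have := edge_le hcl (hadj ((2 * a + 1 + 2 * i : ℕ) : ZMod (2 * m + 1)))
          rw [show ((2 * a + 1 + 2 * i : ℕ) : ZMod (2 * m + 1)) + 1
            = ((2 * a + 1 + 2 * i + 1 : ℕ) : ZMod (2 * m + 1)) by push_cast; rfl] at this
          exact this)
      rw [nsmul_eq_mul, mul_one] at e2
      have e3 : ((m - a : ℕ) : ℝ) = (m : ℝ) - a := by
        rw [Nat.cast_sub ham.le]
      rw [e3] at e2
      linarith
    have hch : ∃ x z, G.Adj (c x) (c z) ∧ z ≠ x + 1 ∧ x ≠ z + 1 := by
      by_contra hcon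
      apply hch
      intro x z hxz
      by_contra h2
      exact hcon ⟨x, z, hxz, fun e => h2 (Or.inl e), fun e => h2 (Or.inr e)⟩
    obtain ⟨x, z, hxz, h1, h2⟩ := hch
    have key2 : ∀ x z, G.Adj (c x) (c z) → z ≠ x + 1 → x ≠ z + 1 → ∀ a : ℕ, 2 * a < 2 * m + 1 →
        z = x + ((2 * a : ℕ) : ZMod (2 * m + 1)) → ∑ x, y (c x) ≤ (m : ℝ) := by
      intro x z hxz h1 h2 a ha he
      have ha1 : 1 ≤ a := by
        by_contra hlt
        have : a = 0 := by omega
        subst this
        apply hxz.ne
        rw [he]; simp
      have ham : a < m := by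
        by_contra hlt
        have : a = m := by omega
        subst this
        apply h2
        have := cast_top (m := a)
        rw [Nat.cast_succ] at this
        rw [he]
        linear_combination -this
      rw [← sum_shift (fun t => y (c t)) x]
      refine key (fun t => c (t + x)) (fun s t hst => add_right_cancel (hinj hst)) ?_ a ha1 ham ?_
      · intro t
        have := hadj (t + x)
        rwa [show t + x + 1 = t + 1 + x by ring] at this
      · simp only [zero_add]
        rw [he, add_comm] at hxz
        exact hxz
    obtain ⟨l, hl, hle⟩ := exists_cast (z - x)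
    rcases Nat.even_or_odd' l with ⟨a, rfl | rfl⟩
    · exact key2 x z hxz h1 h2 a hl (by rw [← hle]; ring)
    · refine key2 z x hxz.symm h2 h1 (m - a) (by omega) ?_
      have e : ((2 * (m - a) + (2 * a + 1) : ℕ) : ZMod (2 * m + 1)) = 0 := by
        rw [show 2 * (m - a) + (2 * a + 1) = 2 * m + 1 by omega]
        exact cast_top
      rw [Nat.cast_add] at e
      linear_combination -e - hle

end Pool.Agent.H9.IDP
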