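import Mathlib
import Pool.Agent.H9.IDP.Poly

set_option autoImplicit false
set_option linter.unusedSectionVars false

namespace Pool.Agent.H9.IDP

open Finset

variable {V : Type*} [DecidableEq V] {G : SimpleGraph V}

theorem exists_walk (z : ℕ → V) : ∀ n : ℕ, (∀ i, i < n → G.Adj (z i) (z (i + 1))) →
    ∃ p : G.Walk (z 0) (z n), p.support = (List.range (n + 1)).map z ∧
      p.edges = (List.range n).map (fun i => s(z i, z (i + 1))) ∧ p.length = n
  | 0, _ => ⟨SimpleGraph.Walk.nil, by simp, by simp, by simp⟩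
  | n + 1, h => by
    obtain ⟨p, h1, h2, h3⟩ := exists_walk z n fun i hi => h i (by omega)
    refine ⟨p.concat (h n (by omega)), ?_, ?_, ?_⟩
    · rw [SimpleGraph.Walk.support_concat, h1, List.range_succ (n := n + 1), List.map_append]
      simp
    · rw [SimpleGraph.Walk.edges_concat, h2, List.range_succ (n := n), List.map_append]
      simp
    · rw [SimpleGraph.Walk.length_concat, h3]

theorem exists_cycle {m : ℕ} (hm : 1 ≤ m) {c : ZMod (2 * m + 1) → V} (hinj : Function.Injective c)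
    (hadj : ∀ x, G.Adj (c x) (c (x + 1))) : ∃ (u : V) (p : G.Walk u u), p.IsCycle ∧
      p.length = 2 * m + 1 ∧ p.support.toFinset = univ.image c := by
  set z : ℕ → V := fun i => c (i : ZMod (2 * m + 1)) with hz
  have hzinj : ∀ i j, i < 2 * m + 1 → j < 2 * m + 1 → z i = z j → i = j :=
    fun i j hi hj h => (cast_inj hi hj).1 (hinj h)
  obtain ⟨p, h1, h2, h3⟩ := exists_walk (G := G) z (2 * m) (fun i _ => by
    have := hadj (i : ZMod (2 * m + 1))
    simpa [hz] using this)
  have hcl : G.Adj (z (2 * m)) (z 0) := by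
    have := hadj ((2 * m : ℕ) : ZMod (2 * m + 1))
    rw [← Nat.cast_succ, show (2 * m).succ = 2 * m + 1 from rfl, cast_top] at this
    simpa [hz] using this
  refine ⟨z (2 * m), SimpleGraph.Walk.cons hcl p, ?_, ?_, ?_⟩
  · rw [SimpleGraph.Walk.cons_isCycle_iff]
    refine ⟨?_, ?_⟩
    · rw [SimpleGraph.Walk.isPath_def, h1]
      refine List.Nodup.map_on ?_ List.nodup_range
      intro i hi j hj hij
      exact hzinj i j (List.mem_range.1 hi) (List.mem_range.1 hj) hij
    · rw [h2, List.mem_map]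
      rintro ⟨i, hi, he⟩
      have hi := List.mem_range.1 hi
      rw [Sym2.eq_iff] at he
      rcases he with ⟨e1, e2⟩ | ⟨e1, e2⟩
      · have := hzinj _ _ (by omega) (by omega) e1; omega
      · have h4 := hzinj _ _ (by omega) (by omega) e1
        have h5 := hzinj _ _ (by omega) (by omega) e2
        omega
  · rw [SimpleGraph.Walk.length_cons, h3]
  · rw [SimpleGraph.Walk.support_cons, h1]
    ext v
    simp only [List.toFinset_cons, mem_insert, List.mem_toFinset, List.mem_map, List.mem_range,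
      mem_image, mem_univ, true_and]
    constructor
    · rintro (rfl | ⟨i, _, rfl⟩)
      · exact ⟨_, rfl⟩
      · exact ⟨_, rfl⟩
    · rintro ⟨x, rfl⟩
      obtain ⟨l, hl, rfl⟩ := exists_cast x
      exact Or.inr ⟨l, hl, rfl⟩

theorem cycle_zmod {u : V} {p : G.Walk u u} (hp : p.IsCycle) {m : ℕ} (hl : p.length = 2 * m + 1) :
    ∃ c : ZMod (2 * m + 1) → V, 1 ≤ m ∧ Function.Injective c ∧ (∀ x, G.Adj (c x) (c (x + 1))) ∧
      p.support.toFinset = univ.image c := by
  have hm : 1 ≤ m := by have := hp.three_le_length; omega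
  have hin := hp.getVert_injOn'
  have hzinj : ∀ i j, i < 2 * m + 1 → j < 2 * m + 1 → p.getVert i = p.getVert j → i = j := by
    intro i j hi hj h
    exact hin (by simp only [Set.mem_ofPred_eq]; omega) (by simp only [Set.mem_ofPred_eq]; omega) h
  refine ⟨fun x => p.getVert x.val, hm, ?_, ?_, ?_⟩
  · intro x y hxy
    exact ZMod.val_injective _ (hzinj _ _ (ZMod.val_lt x) (ZMod.val_lt y) hxy)
  · intro x
    obtain ⟨l, hl2, rfl⟩ := exists_cast x
    have e1 : ZMod.val ((l : ℕ) : ZMod (2 * m + 1)) = l := ZMod.val_cast_of_lt hl2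
    simp only [e1]
    have hadj := p.adj_getVert_succ (i := l) (by omega)
    by_cases hl3 : l + 1 < 2 * m + 1
    · have e2 : ZMod.val (((l : ℕ) : ZMod (2 * m + 1)) + 1) = l + 1 := by
        have := ZMod.val_cast_of_lt hl3
        push_cast at this
        exact this
      rw [e2]
      exact hadj
    · have hl4 : l = 2 * m := by omega
      subst hl4
      have e2 : ((2 * m : ℕ) : ZMod (2 * m + 1)) + 1 = 0 := by
        have := cast_top (m := m)
        push_cast at this ⊢
        exact this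
      rw [e2, ZMod.val_zero, SimpleGraph.Walk.getVert_zero]
      rw [← hl, SimpleGraph.Walk.getVert_length] at hadj
      exact hadj
  · ext v
    rw [List.mem_toFinset, SimpleGraph.Walk.mem_support_iff_exists_getVert, mem_image]
    constructor
    · rintro ⟨n, rfl, hn⟩
      by_cases hn2 : n < 2 * m + 1
      · refine ⟨(n : ZMod (2 * m + 1)), mem_univ _, ?_⟩
        rw [ZMod.val_cast_of_lt hn2]
      · have : n = p.length := by omega
        subst this
        refine ⟨0, mem_univ _, ?_⟩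
        rw [ZMod.val_zero, SimpleGraph.Walk.getVert_zero, SimpleGraph.Walk.getVert_length]
    · rintro ⟨x, _, rfl⟩
      exact ⟨x.val, rfl, by have := ZMod.val_lt x; omega⟩

def HS (G : SimpleGraph V) : Set (V → ℝ) :=
  {x : V → ℝ | (∀ v, 0 ≤ x v) ∧
    (∀ K : Finset V, G.IsClique (K : Set V) → ∑ v ∈ K, x v ≤ 1) ∧
    (∀ (u : V) (p : G.Walk u u), p.IsCycle → Odd p.length →
      ∑ v ∈ p.support.toFinset, x v ≤ ((p.length : ℝ) - 1) / 2)}

theorem mem_HS {x : V → ℝ} (h0 : ∀ v, 0 ≤ x v)
    (hcl : ∀ K : Finset V, G.IsClique (K : Set V) → ∑ v ∈ K, x v ≤ 1)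
    (hh : ∀ (m : ℕ) (c : ZMod (2 * m + 1) → V), Hole G m c → ∑ t, x (c t) ≤ (m : ℝ)) :
    x ∈ HS G := by
  refine ⟨h0, hcl, ?_⟩
  rintro u p hp ⟨m, hm⟩
  obtain ⟨c, h1, h2, h3, h4⟩ := cycle_zmod hp hm
  rw [h4, Finset.sum_image (fun a _ b _ h => h2 h), hm]
  have := cr hcl hh m c h1 h2 h3
  push_cast
  linarith

theorem hole_of_mem_HS {x : V → ℝ} (hx : x ∈ HS G) {m : ℕ} {c : ZMod (2 * m + 1) → V}
    (h : Hole G m c) : ∑ t, x (c t) ≤ (m : ℝ) := by
  obtain ⟨u, p, h1, h2, h3⟩ := exists_cycle (by have := h.two_le; omega) h.inj h.next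
  have := hx.2.2 u p h1 ⟨m, h2⟩
  rw [h3, Finset.sum_image (fun a _ b _ hab => h.inj hab), h2] at this
  push_cast at this
  linarith

/-- a linear inequality valid for the stable sets is valid on the polytope -/
theorem valid {ι : Type*} (I : Finset ι) (e : ι → V) (a : ℝ) {x : V → ℝ}
    (hx : x ∈ convexHull ℝ {y : V → ℝ | ∃ S : Finset V, G.IsIndepSet (S : Set V) ∧
      y = fun v => if v ∈ S then (1 : ℝ) else 0})
    (hS : ∀ S : Finset V, G.IsIndepSet (S : Set V) →
      ∑ i ∈ I, (if e i ∈ S then (1 : ℝ) else 0) ≤ a) : ∑ i ∈ I, x (e i) ≤ a := by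
  have hconv : Convex ℝ {y : V → ℝ | ∑ i ∈ I, y (e i) ≤ a} := by
    intro y hy z hz s t hs ht hst
    simp only [Set.mem_ofPred_eq, Pi.add_apply, Pi.smul_apply, smul_eq_mul,
      Finset.sum_add_distrib, ← Finset.mul_sum] at hy hz ⊢
    have h1 := mul_le_mul_of_nonneg_left hy hs
    have h2 := mul_le_mul_of_nonneg_left hz ht
    have h3 : a = s * a + t * a := by rw [← add_mul, hst, one_mul]
    linarith
  refine convexHull_min ?_ hconv hx
  rintro y ⟨S, hS', rfl⟩
  exact hS S hS'

end Pool.Agent.H9.IDP
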