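import Mathlib
import Pool.Agent.H9.IDP.Poly2

set_option autoImplicit false
set_option linter.unusedSectionVars false

namespace Pool.Agent.H9.IDP

open Finset

variable {V : Type*} [DecidableEq V] {G : SimpleGraph V}

theorem hole_zero {y : V → ℝ} (he : ∀ a b, G.Adj a b → y a + y b ≤ 1) {m : ℕ}
    {c : ZMod (2 * m + 1) → V} (hadj : ∀ x, G.Adj (c x) (c (x + 1))) {t₀ : ZMod (2 * m + 1)}
    (h : y (c t₀) = 0) : ∑ x, y (c x) ≤ (m : ℝ) := by
  rw [← sum_shift (fun x => y (c x)) t₀, sum_zmod,
    sum_pair (fun i => y (c ((i : ZMod (2 * m + 1)) + t₀)))]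
  rw [Nat.cast_zero, zero_add, h, zero_add]
  have : ∑ j ∈ range m, (y (c (((2 * j + 1 : ℕ) : ZMod (2 * m + 1)) + t₀))
      + y (c (((2 * j + 2 : ℕ) : ZMod (2 * m + 1)) + t₀))) ≤ ∑ _j ∈ range m, (1 : ℝ) := by
    apply Finset.sum_le_sum
    intro j _
    have h1 := he _ _ (hadj (((2 * j + 1 : ℕ) : ZMod (2 * m + 1)) + t₀))
    rw [show ((2 * j + 1 : ℕ) : ZMod (2 * m + 1)) + t₀ + 1
      = ((2 * j + 2 : ℕ) : ZMod (2 * m + 1)) + t₀ by push_cast; ring] at h1
    exact h1
  simpa using this

theorem nat_stable {m : ℕ} {c : ZMod (2 * m + 1) → V} (h : Hole G m c) {S : Finset V}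
    (hS : G.IsIndepSet (S : Set V)) (x : ZMod (2 * m + 1)) :
    (if c x ∈ S then 1 else 0) + (if c (x + 1) ∈ S then 1 else 0) ≤ 1 := by
  by_cases h1 : c x ∈ S
  · have h2 : c (x + 1) ∉ S := fun h2 => hS h1 h2 (h.next x).ne (h.next x)
    simp only [h1, h2, if_true, if_false, add_zero, le_refl]
  · simp only [h1, if_false, zero_add]
    split_ifs <;> omega

theorem clique_on_hole {m : ℕ} {c : ZMod (2 * m + 1) → V} (h : Hole G m c) {K : Finset V}
    (hK : G.IsClique (K : Set V)) (hC : ∀ v ∈ K, ∃ t, v = c t) : K.card ≤ 2 := by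
  by_contra hlt
  obtain ⟨a, ha, b, hb, d, hd, hab, had, hbd⟩ := Finset.two_lt_card.1 (by omega : 2 < K.card)
  have h1 := hK ha hb hab
  have h2 := hK ha hd had
  have h3 := hK hb hd hbd
  obtain ⟨r, rfl⟩ := hC a ha
  obtain ⟨s, rfl⟩ := hC b hb
  obtain ⟨t, rfl⟩ := hC d hd
  rw [h.adj] at h1 h2 h3
  have n1 := one_ne (m := m) h.two_le
  have n3 := three_ne (m := m) h.two_le
  have hbd' : s ≠ t := fun e => hbd (by rw [e])
  rcases h1 with h1 | h1 <;> rcases h2 with h2 | h2
  · exact hbd' (by rw [h1, h2])
  · rcases h3 with h3 | h3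
    · exact n3 (by linear_combination -h1 - h2 - h3)
    · exact n1 (by linear_combination h3 - h1 - h2)
  · rcases h3 with h3 | h3
    · exact n1 (by linear_combination h3 - h1 - h2)
    · exact n3 (by linear_combination -h1 - h2 - h3)
  · exact hbd' (by linear_combination h2 - h1)

/-- a vertex outside of the hole cannot see `c 0`, `c 1` and `c (2j)` -/
theorem att0 (hP : HS G ⊆ convexHull ℝ {y : V → ℝ | ∃ S : Finset V, G.IsIndepSet (S : Set V) ∧
      y = fun v => if v ∈ S then (1 : ℝ) else 0}) {m : ℕ} {c : ZMod (2 * m + 1) → V}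
    (h : Hole G m c) {u : V} (hu : ∀ x, u ≠ c x) (h0 : G.Adj u (c 0)) (h1 : G.Adj u (c 1))
    {j : ℕ} (hj1 : 1 ≤ j) (hjm : j ≤ m)
    (h2 : G.Adj u (c ((2 * j : ℕ) : ZMod (2 * m + 1)))) : False := by
  classical
  have hm := h.two_le
  have hmR : (0 : ℝ) < 2 * m + 1 := by positivity
  have hm2 : (2 : ℝ) ≤ m := by exact_mod_cast hm
  set x : V → ℝ := fun v => if v = u then 1 / (2 * (m : ℝ) + 1) else
    if ∃ t, v = c t then m / (2 * (m : ℝ) + 1) else 0 with hx
  have hxu : x u = 1 / (2 * (m : ℝ) + 1) := by simp [hx]
  have hxc : ∀ t, x (c t) = m / (2 * (m : ℝ) + 1) := by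
    intro t
    have h3 : c t ≠ u := (hu t).symm
    have h4 : ∃ t', c t = c t' := ⟨t, rfl⟩
    simp only [hx, h3, if_false, h4, if_true]
  have hx0 : ∀ v, 0 ≤ x v := by
    intro v
    simp only [hx]
    split_ifs <;> positivity
  have hxle : ∀ v, v ≠ u → x v ≤ m / (2 * (m : ℝ) + 1) := by
    intro v hv
    simp only [hx, hv, if_false]
    split_ifs
    · exact le_rfl
    · positivity
  have hxcl : ∀ K : Finset V, G.IsClique (K : Set V) → ∑ v ∈ K, x v ≤ 1 := by
    intro K hK
    have e1 : ∑ v ∈ K, x v ≤ ∑ v ∈ K, ((if v = u then 1 / (2 * (m : ℝ) + 1) else 0) +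
        (if ∃ t, v = c t then m / (2 * (m : ℝ) + 1) else 0)) := by
      apply Finset.sum_le_sum
      intro v _
      simp only [hx]
      split_ifs <;> simp <;> positivity
    have e2 : ∑ v ∈ K, (if v = u then 1 / (2 * (m : ℝ) + 1) else 0) ≤ 1 / (2 * (m : ℝ) + 1) := by
      rw [Finset.sum_ite_eq']
      split_ifs
      · exact le_rfl
      · positivity
    have e3 : ∑ v ∈ K, (if ∃ t, v = c t then m / (2 * (m : ℝ) + 1) else 0)
        ≤ 2 * (m / (2 * (m : ℝ) + 1)) := by
      rw [← Finset.sum_filter, Finset.sum_const, nsmul_eq_mul]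
      apply mul_le_mul_of_nonneg_right _ (by positivity)
      have : (K.filter fun v => ∃ t, v = c t).card ≤ 2 := by
        apply clique_on_hole h
        · intro a ha b hb hab
          simp only [coe_filter, Set.mem_ofPred_eq] at ha hb
          exact hK ha.1 hb.1 hab
        · intro v hv
          exact (mem_filter.1 hv).2
      exact_mod_cast this
    rw [Finset.sum_add_distrib] at e1
    have e4 : 1 / (2 * (m : ℝ) + 1) + 2 * (m / (2 * (m : ℝ) + 1)) = 1 := by
      field_simp
      ring
    linarith
  have hxHS : x ∈ HS G := by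
    refine mem_HS hx0 hxcl ?_
    intro m' c' h'
    have hm' := h'.two_le
    have hm'R : (2 : ℝ) ≤ m' := by exact_mod_cast hm'
    by_cases hz : ∃ t, x (c' t) = 0
    · obtain ⟨t, ht⟩ := hz
      exact hole_zero (fun a b hab => edge_le hxcl hab) h'.next ht
    · have hW : ∀ t, c' t = u ∨ ∃ s, c' t = c s := by
        intro t
        by_contra hcon
        apply hz
        refine ⟨t, ?_⟩
        have h3 : ¬ (c' t = u) := fun e => hcon (Or.inl e)
        have h4 : ¬ (∃ s, c' t = c s) := fun e => hcon (Or.inr e)
        simp only [hx, h3, h4, if_false]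
      by_cases hu' : ∃ t₀, c' t₀ = u
      · obtain ⟨t₀, ht₀⟩ := hu'
        have e1 : ∑ t, x (c' t) ≤ ∑ t, ((if t = t₀ then (1 / (2 * (m : ℝ) + 1)
            - m / (2 * (m : ℝ) + 1)) else 0) + m / (2 * (m : ℝ) + 1)) := by
          apply Finset.sum_le_sum
          intro t _
          by_cases ht : t = t₀
          · rw [ht, ht₀, hxu]; simp
          · simp only [ht, if_false, zero_add]
            apply hxle
            intro e
            exact ht (h'.inj (e.trans ht₀.symm))
        rw [Finset.sum_add_distrib, Finset.sum_ite_eq', Finset.sum_const, card_univ, ZMod.card,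
          nsmul_eq_mul] at e1
        simp only [mem_univ, if_true] at e1
        push_cast at e1
        refine le_trans e1 ?_
        have e2 : 1 / (2 * (m : ℝ) + 1) - m / (2 * (m : ℝ) + 1)
            + (2 * (m' : ℝ) + 1) * (m / (2 * (m : ℝ) + 1))
            = (1 + 2 * m' * m) / (2 * (m : ℝ) + 1) := by
          field_simp
          ring
        rw [e2, div_le_iff₀ hmR]
        nlinarith
      · have hall : ∀ t, ∃ s, c' t = c s := by
          intro t
          rcases hW t with e | e
          · exact absurd ⟨t, e⟩ hu'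
          · exact e
        choose σ hσ using hall
        have hσinj : Function.Injective σ := by
          intro a b hab
          apply h'.inj
          rw [hσ a, hσ b, hab]
        have hcl : ∀ s, s ∈ univ.image σ → s + 1 ∈ univ.image σ := by
          intro s hs
          obtain ⟨t, _, rfl⟩ := mem_image.1 hs
          have g1 := h'.next t
          have g2 := (h'.next (t - 1)).symm
          rw [sub_add_cancel] at g2
          rw [hσ t, hσ (t + 1), h.adj] at g1
          rw [hσ t, hσ (t - 1), h.adj] at g2
          rcases g1 with g1 | g1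
          · rw [← g1]; exact mem_image_of_mem _ (mem_univ _)
          · rcases g2 with g2 | g2
            · rw [← g2]; exact mem_image_of_mem _ (mem_univ _)
            · exfalso
              have := hσinj (add_right_cancel (g1.symm.trans g2))
              exact two_ne (m := m') hm' (by linear_combination this)
        have huniv : univ.image σ = univ := by
          have hne : ∃ s, s ∈ univ.image σ := ⟨σ 0, mem_image_of_mem _ (mem_univ _)⟩
          obtain ⟨s, hs⟩ := hne
          have : ∀ n : ℕ, s + n ∈ univ.image σ := by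
            intro n
            induction n with
            | zero => simpa using hs
            | succ n ih =>
              have := hcl _ ih
              rwa [show s + (n : ZMod (2 * m + 1)) + 1 = s + ((n + 1 : ℕ) : ZMod (2 * m + 1)) by
                push_cast; ring] at this
          rw [Finset.eq_univ_iff_forall]
          intro r
          obtain ⟨l, _, hl⟩ := exists_cast (r - s)
          have := this l
          rw [← hl] at this
          simpa using this
        have hcard : 2 * m + 1 ≤ 2 * m' + 1 := by
          have g1 : (univ.image σ).card = 2 * m + 1 := by rw [huniv, card_univ, ZMod.card]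
          have g2 : (univ.image σ).card ≤ 2 * m' + 1 := by
            refine le_trans Finset.card_image_le ?_
            rw [card_univ, ZMod.card]
          omega
        have hmm : (m : ℝ) ≤ m' := by
          have : m ≤ m' := by omega
          exact_mod_cast this
        have e1 : ∑ t, x (c' t) = (2 * (m' : ℝ) + 1) * (m / (2 * (m : ℝ) + 1)) := by
          have : ∀ t, x (c' t) = m / (2 * (m : ℝ) + 1) := fun t => by rw [hσ t, hxc]
          simp only [this, Finset.sum_const, card_univ, ZMod.card, nsmul_eq_mul]
          push_cast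
          ring
        rw [e1, ← mul_div_assoc, div_le_iff₀ hmR]
        nlinarith
  have hval := valid (G := G) (univ : Finset (Option (ZMod (2 * m + 1))))
    (fun i => i.elim u c) (m : ℝ) (hP hxHS) (by
      intro S hS
      rw [Fintype.sum_option]
      simp only [Option.elim_none, Option.elim_some]
      have key : (if u ∈ S then 1 else 0) + ∑ t, (if c t ∈ S then 1 else 0) ≤ m := by
        have hst := sum_le_of_stable (fun t => if c t ∈ S then 1 else 0)
          (fun t => nat_stable h hS t)
        by_cases huS : u ∈ S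
        · have hn : ∀ t, G.Adj u (c t) → c t ∉ S := fun t ht hh => hS huS hh ht.ne ht
          by_contra hlt
          have := sat (m := m) (fun t => if c t ∈ S then 1 else 0)
            (fun t => nat_stable h hS t) (by simp [hn 0 h0]) (by simp [hn 1 h1])
            (by simp only [huS, if_true] at hlt; omega) j hj1 hjm
          simp only [hn _ h2, if_false] at this
          omega
        · simp only [huS, if_false, zero_add]
          exact hst
      exact_mod_cast key)
  rw [Fintype.sum_option] at hval
  simp only [Option.elim_none, Option.elim_some, hxu, hxc, Finset.sum_const, card_univ, ZMod.card,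
    nsmul_eq_mul] at hval
  push_cast at hval
  have e5 : (2 * (m : ℝ) + 1) * (m / (2 * (m : ℝ) + 1)) = m := by
    field_simp
  rw [e5] at hval
  have : 0 < 1 / (2 * (m : ℝ) + 1) := by positivity
  linarith

theorem att_of (hc : ClawFree G) (hP : HS G ⊆ convexHull ℝ {y : V → ℝ | ∃ S : Finset V,
      G.IsIndepSet (S : Set V) ∧ y = fun v => if v ∈ S then (1 : ℝ) else 0}) : Att G := by
  intro m c h u hu x hx
  have hm := h.two_le
  have n1 := one_ne (m := m) hm
  have n2 := two_ne (m := m) hm
  have n3 := three_ne (m := m) hm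
  -- neighbours come in pairs
  have hpair : ∀ y, G.Adj u (c y) → G.Adj u (c (y + 1)) ∨ G.Adj u (c (y - 1)) := by
    intro y hy
    have g1 : G.Adj (c y) (c (y - 1)) := (h.adj _ _).2 (Or.inr (by ring))
    rcases hc (c y) (c (y + 1)) (c (y - 1)) u (h.next y) g1 hy.symm
      (fun e => n2 (by linear_combination h.inj e)) (hu _).symm (hu _).symm with g | g | g
    · exfalso
      rcases (h.adj _ _).1 g with e | e
      · exact n3 (by linear_combination -e)
      · exact n1 (by linear_combination e)
    · exact Or.inl g.symm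
    · exact Or.inr g.symm
  have hs : ∃ s, G.Adj u (c s) ∧ G.Adj u (c (s + 1)) := by
    rcases hpair x hx with g | g
    · exact ⟨x, hx, g⟩
    · exact ⟨x - 1, g, by rwa [sub_add_cancel]⟩
  obtain ⟨s, hs1, hs2⟩ := hs
  refine ⟨s, hu, fun y => ⟨fun hy => ?_, ?_⟩⟩
  · by_contra hcon
    have hy1 : y ≠ s := fun e => hcon (Or.inl e)
    have hy2 : y ≠ s + 1 := fun e => hcon (Or.inr e)
    have key : ∀ j : ℕ, 1 ≤ j → j ≤ m →
        ¬ G.Adj u (c (s + ((2 * j : ℕ) : ZMod (2 * m + 1)))) := by
      intro j hj1 hjm hadj
      refine att0 hP (h.shift s) (u := u) (fun t => hu _) ?_ ?_ hj1 hjm ?_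
      · simpa using hs1
      · rw [add_comm 1 s]; exact hs2
      · rw [add_comm _ s]; exact hadj
    obtain ⟨l, hl, hle⟩ := exists_cast (y - s)
    have hy' : y = s + (l : ZMod (2 * m + 1)) := by rw [← hle]; ring
    rcases Nat.even_or_odd' l with ⟨a, rfl | rfl⟩
    · have ha : 1 ≤ a := by
        by_contra hlt
        have : a = 0 := by omega
        subst this
        exact hy1 (by simpa using hy')
      exact key a ha (by omega) (hy' ▸ hy)
    · have ha : 1 ≤ a := by
        by_contra hlt
        have : a = 0 := by omega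
        subst this
        exact hy2 (by simpa using hy')
      rcases hpair y hy with g | g
      · refine key (a + 1) (by omega) (by omega) ?_
        rw [hy'] at g
        rwa [show s + ((2 * a + 1 : ℕ) : ZMod (2 * m + 1)) + 1
          = s + ((2 * (a + 1) : ℕ) : ZMod (2 * m + 1)) by push_cast; ring] at g
      · refine key a ha (by omega) ?_
        rw [hy'] at g
        rwa [show s + ((2 * a + 1 : ℕ) : ZMod (2 * m + 1)) - 1
          = s + ((2 * a : ℕ) : ZMod (2 * m + 1)) by push_cast; ring] at g
  · rintro (rfl | rfl)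
    · exact hs1
    · exact hs2

end Pool.Agent.H9.IDP
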