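import Mathlib
import Pool.Agent.H9.IDP.Poly3

set_option autoImplicit false
set_option linter.unusedSectionVars false

namespace Pool.Agent.H9.IDP

open Finset

variable {V : Type*} [DecidableEq V] {G : SimpleGraph V}

/-- a labelled structure giving a point of the polytope -/
theorem lab {W B : V → Prop} [DecidablePred W] [DecidablePred B] (lam : V → ℕ)
    (hBW : ∀ v, B v → W v)
    (h1 : ∀ b u, B b → W u → G.Adj b u → lam u = lam b ∧ ¬ B u)
    (h2 : ∀ u v, W u → W v → ¬ B u → ¬ B v → G.Adj u v → lam u ≠ lam v)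
    (h3 : ∀ K : Finset V, G.IsClique (K : Set V) → (∀ v ∈ K, W v ∧ ¬ B v) → K.card ≤ 3) :
    (fun v => (if W v then (1 : ℝ) / 3 else 0) + (if B v then (1 : ℝ) / 3 else 0)) ∈ HS G := by
  set x : V → ℝ := fun v => (if W v then (1 : ℝ) / 3 else 0) + (if B v then (1 : ℝ) / 3 else 0)
    with hx
  have hx0 : ∀ v, 0 ≤ x v := by
    intro v
    simp only [hx]
    split_ifs <;> norm_num
  have hxn : ∀ v, ¬ W v → x v = 0 := by
    intro v hv
    have : ¬ B v := fun hb => hv (hBW v hb)
    simp [hx, hv, this]
  have hxW : ∀ v, W v → ¬ B v → x v = 1 / 3 := by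
    intro v hv hb
    simp [hx, hv, hb]
  have hxB : ∀ v, B v → x v = 2 / 3 := by
    intro v hb
    simp only [hx, hBW v hb, hb, if_true]
    norm_num
  have hxcl : ∀ K : Finset V, G.IsClique (K : Set V) → ∑ v ∈ K, x v ≤ 1 := by
    intro K hK
    have e0 : ∑ v ∈ K, x v = ∑ v ∈ K.filter W, x v := by
      rw [Finset.sum_filter]
      apply Finset.sum_congr rfl
      intro v _
      split_ifs with h
      · rfl
      · exact hxn v h
    rw [e0]
    by_cases hb : ∃ b ∈ K.filter W, B b
    · obtain ⟨b, hbK, hB⟩ := hb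
      rw [← Finset.add_sum_erase _ _ hbK, hxB b hB]
      have hc : ((K.filter W).erase b).card ≤ 1 := by
        rw [Finset.card_le_one]
        intro u hu v hv
        simp only [mem_erase, mem_filter] at hu hv
        by_contra hne
        have hbK' := (mem_filter.1 hbK).1
        have a1 := hK hbK' hu.2.1 hu.1.symm
        have a2 := hK hbK' hv.2.1 hv.1.symm
        have a3 := hK hu.2.1 hv.2.1 hne
        obtain ⟨l1, n1⟩ := h1 b u hB hu.2.2 a1
        obtain ⟨l2, n2⟩ := h1 b v hB hv.2.2 a2
        exact h2 u v hu.2.2 hv.2.2 n1 n2 a3 (l1.trans l2.symm)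
      have e1 : ∑ v ∈ (K.filter W).erase b, x v ≤ ((K.filter W).erase b).card • (1 / 3 : ℝ) := by
        apply Finset.sum_le_card_nsmul
        intro u hu
        simp only [mem_erase, mem_filter] at hu
        have a1 := hK (mem_filter.1 hbK).1 hu.2.1 hu.1.symm
        obtain ⟨l1, n1⟩ := h1 b u hB hu.2.2 a1
        rw [hxW u hu.2.2 n1]
      rw [nsmul_eq_mul] at e1
      have : (((K.filter W).erase b).card : ℝ) ≤ 1 := by exact_mod_cast hc
      linarith
    · have hb' : ∀ v ∈ K.filter W, ¬ B v := fun v hv hB => hb ⟨v, hv, hB⟩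
      have hc := h3 (K.filter W)
        (by
          intro a ha b hb hab
          simp only [coe_filter, Set.mem_ofPred_eq] at ha hb
          exact hK ha.1 hb.1 hab)
        (fun v hv => ⟨(mem_filter.1 hv).2, hb' v hv⟩)
      have e1 : ∑ v ∈ K.filter W, x v = ∑ _v ∈ K.filter W, (1 / 3 : ℝ) :=
        Finset.sum_congr rfl fun v hv => hxW v (mem_filter.1 hv).2 (hb' v hv)
      rw [e1, Finset.sum_const, nsmul_eq_mul]
      have : ((K.filter W).card : ℝ) ≤ 3 := by exact_mod_cast hc
      linarith
  refine mem_HS hx0 hxcl ?_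
  intro m c h
  by_cases hz : ∃ t, ¬ W (c t)
  · obtain ⟨t, ht⟩ := hz
    exact hole_zero (fun a b hab => edge_le hxcl hab) h.next (hxn _ ht)
  · have hW : ∀ t, W (c t) := fun t => by
      by_contra hcon
      exact hz ⟨t, hcon⟩
    set f : ZMod (2 * m + 1) → ℕ := fun t => if B (c t) then 1 else 0 with hf
    have hst : ∀ t, f t + f (t + 1) ≤ 1 := by
      intro t
      by_cases hb : B (c t)
      · have := (h1 _ _ hb (hW (t + 1)) (h.next t)).2
        simp [hf, this]
        split_ifs <;> omega
      · simp only [hf, hb, if_false, zero_add]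
        split_ifs <;> omega
    have hlt : ∑ t, f t < m := by
      by_contra hge
      have hge : m ≤ ∑ t, f t := by omega
      have hle := sum_le_of_stable f hst
      have hex : ∃ t₀, f t₀ = 0 ∧ f (t₀ + 1) = 0 := by
        by_contra hcon
        have : ∀ t, f t + f (t + 1) = 1 := by
          intro t
          have h5 := hst t
          by_contra h6
          exact hcon ⟨t, by omega, by omega⟩
        have h7 : ∑ t, (f t + f (t + 1)) = ∑ _t : ZMod (2 * m + 1), 1 :=
          Finset.sum_congr rfl fun t _ => this t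
        rw [Finset.sum_add_distrib, sum_shift f 1] at h7
        simp [ZMod.card] at h7
        omega
      obtain ⟨t₀, ht0, ht1⟩ := hex
      have hsat := sat (m := m) (fun t => f (t + t₀))
        (fun t => by
          have := hst (t + t₀)
          rwa [show t + t₀ + 1 = t + 1 + t₀ by ring] at this)
        (by simpa using ht0) (by simpa [add_comm] using ht1)
        (by rw [sum_shift f t₀]; exact hge)
      have hB : ∀ j : ℕ, 1 ≤ j → j ≤ m → B (c (((2 * j : ℕ) : ZMod (2 * m + 1)) + t₀)) := by
        intro j hj1 hj2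
        have := hsat j hj1 hj2
        by_contra hcon
        simp only [hf, hcon, if_false] at this
        omega
      have hlam : ∀ j : ℕ, j ≤ m →
          lam (c (((2 * j + 1 : ℕ) : ZMod (2 * m + 1)) + t₀)) = lam (c (1 + t₀)) := by
        intro j
        induction j with
        | zero => intro _; simp
        | succ j ih =>
          intro hj
          rw [← ih (by omega)]
          have hb := hB (j + 1) (by omega) hj
          have a1 : G.Adj (c (((2 * (j + 1) : ℕ) : ZMod (2 * m + 1)) + t₀))
              (c (((2 * (j + 1) + 1 : ℕ) : ZMod (2 * m + 1)) + t₀)) := by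
            have := h.next (((2 * (j + 1) : ℕ) : ZMod (2 * m + 1)) + t₀)
            rwa [show ((2 * (j + 1) : ℕ) : ZMod (2 * m + 1)) + t₀ + 1
              = ((2 * (j + 1) + 1 : ℕ) : ZMod (2 * m + 1)) + t₀ by push_cast; ring] at this
          have a2 : G.Adj (c (((2 * (j + 1) : ℕ) : ZMod (2 * m + 1)) + t₀))
              (c (((2 * j + 1 : ℕ) : ZMod (2 * m + 1)) + t₀)) := by
            have := (h.next (((2 * j + 1 : ℕ) : ZMod (2 * m + 1)) + t₀)).symm
            rwa [show ((2 * j + 1 : ℕ) : ZMod (2 * m + 1)) + t₀ + 1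
              = ((2 * (j + 1) : ℕ) : ZMod (2 * m + 1)) + t₀ by push_cast; ring] at this
          rw [(h1 _ _ hb (hW _) a1).1, (h1 _ _ hb (hW _) a2).1]
      have hfin := hlam m le_rfl
      rw [cast_top, zero_add] at hfin
      have hn0 : ¬ B (c t₀) := by
        intro hb
        simp [hf, hb] at ht0
      have hn1 : ¬ B (c (1 + t₀)) := by
        intro hb
        rw [add_comm] at hb
        simp [hf, hb] at ht1
      refine h2 _ _ (hW _) (hW _) hn0 hn1 ?_ hfin
      rw [add_comm]
      exact h.next t₀
    have e1 : ∀ t, x (c t) = 1 / 3 + (f t : ℝ) * (1 / 3) := by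
      intro t
      simp only [hx, hW t, if_true, hf]
      split_ifs <;> simp
    simp only [e1, Finset.sum_add_distrib, ← Finset.sum_mul, Finset.sum_const, card_univ,
      ZMod.card, nsmul_eq_mul]
    have e2 : (∑ t, (f t : ℝ)) + 1 ≤ m := by
      have : ∑ t, f t + 1 ≤ m := hlt
      exact_mod_cast this
    push_cast
    linarith

end Pool.Agent.H9.IDP
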