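import Mathlib
import Pool.Agent.H9.IDP.Poly4

set_option autoImplicit false
set_option linter.unusedSectionVars false

namespace Pool.Agent.H9.IDP

open Finset

variable {V : Type*} [DecidableEq V] {G : SimpleGraph V}

theorem hole_adj {m : ℕ} {c : ZMod (2 * m + 1) → V} (h : Hole G m c) {l l' : ℕ} (hl : l ≤ 2 * m)
    (hl' : l' ≤ 2 * m) (hadj : G.Adj (c (l : ZMod (2 * m + 1))) (c (l' : ZMod (2 * m + 1)))) :
    l' = l + 1 ∨ l = l' + 1 ∨ (l = 0 ∧ l' = 2 * m) ∨ (l = 2 * m ∧ l' = 0) := by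
  have key : ∀ l l' : ℕ, l ≤ 2 * m → l' ≤ 2 * m →
      (l' : ZMod (2 * m + 1)) = (l : ZMod (2 * m + 1)) + 1 → l' = l + 1 ∨ (l = 2 * m ∧ l' = 0) := by
    intro l l' hl hl' he
    by_cases hlt : l + 1 < 2 * m + 1
    · left
      have : (l' : ZMod (2 * m + 1)) = ((l + 1 : ℕ) : ZMod (2 * m + 1)) := by
        rw [he]; push_cast; rfl
      exact (cast_inj (by omega) hlt).1 this
    · right
      have hl2 : l = 2 * m := by omega
      subst hl2
      refine ⟨rfl, ?_⟩
      have e : ((2 * m : ℕ) : ZMod (2 * m + 1)) + 1 = 0 := by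
        have := cast_top (m := m)
        push_cast at this ⊢
        exact this
      rw [e, ← Nat.cast_zero] at he
      exact (cast_inj (by omega) (by omega)).1 he
  rcases (h.adj _ _).1 hadj with e | e
  · rcases key l l' hl hl' e with g | g
    · exact Or.inl g
    · exact Or.inr (Or.inr (Or.inr g))
  · rcases key l' l hl' hl e with g | g
    · exact Or.inr (Or.inl g)
    · exact Or.inr (Or.inr (Or.inl ⟨g.2, g.1⟩))

theorem ear_HS {m : ℕ} {c : ZMod (2 * m + 1) → V} (h : Hole G m c) {a : ℕ}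
    (ha1 : 1 ≤ a) (ham : a ≤ m) {t : ℕ} (ht : 1 ≤ t) {z : ℕ → V} (hz0 : At G c (z 0) 0)
    (hzt : At G c (z (2 * t)) ((2 * a : ℕ) : ZMod (2 * m + 1)))
    (hint : ∀ i, 0 < i → i < 2 * t → ∀ x, z i ≠ c x ∧ ¬ G.Adj (z i) (c x))
    (hind : ∀ i j, i ≤ 2 * t → j ≤ 2 * t → (G.Adj (z i) (z j) ↔ j = i + 1 ∨ i = j + 1))
    (hinj : ∀ i j, i ≤ 2 * t → j ≤ 2 * t → z i = z j → i = j) :
    ∃ x ∈ HS G, (∀ l : ℕ, l ≤ 2 * m → (1 : ℝ) / 3 +
        (if (l % 2 = 0 ∧ 2 * a + 2 ≤ l) ∨ (l % 2 = 1 ∧ 3 ≤ l ∧ l + 1 ≤ 2 * a) then (1 : ℝ) / 3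
          else 0) ≤ x (c (l : ZMod (2 * m + 1)))) ∧
      (∀ i : ℕ, i ≤ 2 * t → (1 : ℝ) / 3 + (if i % 2 = 1 then (1 : ℝ) / 3 else 0) ≤ x (z i)) := by
  classical
  have hm := h.two_le
  have fC : ∀ l l' : ℕ, l ≤ 2 * m → l' ≤ 2 * m →
      c (l : ZMod (2 * m + 1)) = c (l' : ZMod (2 * m + 1)) → l = l' := by
    intro l l' hl hl' he
    exact (cast_inj (by omega) (by omega)).1 (h.inj he)
  have fZC : ∀ i, i ≤ 2 * t → ∀ x, z i ≠ c x := by
    intro i hi x
    rcases Nat.eq_zero_or_pos i with h0 | h0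
    · subst h0; exact hz0.1 x
    · rcases Nat.lt_or_ge i (2 * t) with h1 | h1
      · exact (hint i h0 h1 x).1
      · have : i = 2 * t := by omega
        subst this
        exact hzt.1 x
  have aZC : ∀ i l : ℕ, i ≤ 2 * t → l ≤ 2 * m → G.Adj (z i) (c (l : ZMod (2 * m + 1))) →
      (i = 0 ∧ (l = 0 ∨ l = 1)) ∨ (i = 2 * t ∧ (l = 2 * a ∨ l = 2 * a + 1 ∨ (a = m ∧ l = 0))) := by
    intro i l hi hl hadj
    rcases Nat.eq_zero_or_pos i with h0 | h0
    · subst h0
      left
      refine ⟨rfl, ?_⟩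
      rcases (hz0.2 _).1 hadj with e | e
      · left
        rw [← Nat.cast_zero] at e
        exact (cast_inj (by omega) (by omega)).1 e
      · right
        rw [zero_add, ← Nat.cast_one] at e
        exact (cast_inj (by omega) (by omega)).1 e
    · rcases Nat.lt_or_ge i (2 * t) with h1 | h1
      · exact absurd hadj (hint i h0 h1 _).2
      · have hi2 : i = 2 * t := by omega
        subst hi2
        right
        refine ⟨rfl, ?_⟩
        rcases (hzt.2 _).1 hadj with e | e
        · left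
          exact (cast_inj (by omega) (by omega)).1 e
        · right
          by_cases hlt : 2 * a + 1 < 2 * m + 1
          · left
            have : (l : ZMod (2 * m + 1)) = ((2 * a + 1 : ℕ) : ZMod (2 * m + 1)) := by
              rw [e]; push_cast; rfl
            exact (cast_inj (by omega) hlt).1 this
          · right
            have ha2 : a = m := by omega
            subst ha2
            refine ⟨rfl, ?_⟩
            have e2 : ((2 * a : ℕ) : ZMod (2 * a + 1)) + 1 = 0 := by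
              have := cast_top (m := a)
              push_cast at this ⊢
              exact this
            rw [e2, ← Nat.cast_zero] at e
            exact (cast_inj (by omega) (by omega)).1 e
  set W : V → Prop := fun v => (∃ l : ℕ, l ≤ 2 * m ∧ v = c (l : ZMod (2 * m + 1))) ∨
    (∃ i : ℕ, i ≤ 2 * t ∧ v = z i) with hW
  set B : V → Prop := fun v => (∃ l : ℕ, l ≤ 2 * m ∧
      ((l % 2 = 0 ∧ 2 * a + 2 ≤ l) ∨ (l % 2 = 1 ∧ 3 ≤ l ∧ l + 1 ≤ 2 * a)) ∧
        v = c (l : ZMod (2 * m + 1))) ∨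
    (∃ i : ℕ, i ≤ 2 * t ∧ i % 2 = 1 ∧ v = z i) with hB
  set lam : V → ℕ := fun v => if v = c ((1 : ℕ) : ZMod (2 * m + 1)) then 0 else
    if ∃ l : ℕ, 2 ≤ l ∧ l ≤ 2 * a ∧ v = c (l : ZMod (2 * m + 1)) then 1 else
    if ∃ i : ℕ, i ≤ 2 * t ∧ v = z i then 3 else 2 with hlam
  have lamC : ∀ l : ℕ, l ≤ 2 * m → lam (c (l : ZMod (2 * m + 1))) =
      if l = 1 then 0 else if 2 ≤ l ∧ l ≤ 2 * a then 1 else 2 := by
    intro l hl
    simp only [hlam]
    by_cases e1 : l = 1
    · subst e1; simp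
    · have g1 : ¬ (c (l : ZMod (2 * m + 1)) = c ((1 : ℕ) : ZMod (2 * m + 1))) :=
        fun e => e1 (fC l 1 hl (by omega) e)
      rw [if_neg g1, if_neg e1]
      by_cases e2 : 2 ≤ l ∧ l ≤ 2 * a
      · rw [if_pos e2, if_pos ⟨l, e2.1, e2.2, rfl⟩]
      · rw [if_neg e2, if_neg, if_neg]
        · rintro ⟨i, hi, e⟩
          exact fZC i hi _ e.symm
        · rintro ⟨l', h1, h2, e⟩
          have := fC l l' hl (by omega) e
          subst this
          exact e2 ⟨h1, h2⟩
  have lamZ : ∀ i : ℕ, i ≤ 2 * t → lam (z i) = 3 := by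
    intro i hi
    simp only [hlam]
    rw [if_neg (fZC i hi _), if_neg, if_pos ⟨i, hi, rfl⟩]
    rintro ⟨l, _, _, e⟩
    exact fZC i hi _ e
  have BC : ∀ l : ℕ, l ≤ 2 * m → (B (c (l : ZMod (2 * m + 1))) ↔
      ((l % 2 = 0 ∧ 2 * a + 2 ≤ l) ∨ (l % 2 = 1 ∧ 3 ≤ l ∧ l + 1 ≤ 2 * a))) := by
    intro l hl
    constructor
    · rintro (⟨l', hl', h1, e⟩ | ⟨i, hi, _, e⟩)
      · have := fC l l' hl hl' e
        subst this
        exact h1
      · exact absurd e.symm (fZC i hi _)
    · intro h1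
      exact Or.inl ⟨l, hl, h1, rfl⟩
  have BZ : ∀ i : ℕ, i ≤ 2 * t → (B (z i) ↔ i % 2 = 1) := by
    intro i hi
    constructor
    · rintro (⟨l', hl', h1, e⟩ | ⟨j, hj, h1, e⟩)
      · exact absurd e (fZC i hi _)
      · have := hinj i j hi hj e
        subst this
        exact h1
    · intro h1
      exact Or.inr ⟨i, hi, h1, rfl⟩
  have hBW : ∀ v, B v → W v := by
    rintro v (⟨l, hl, _, e⟩ | ⟨i, hi, _, e⟩)
    · exact Or.inl ⟨l, hl, e⟩
    · exact Or.inr ⟨i, hi, e⟩
  have h1 : ∀ b u, B b → W u → G.Adj b u → lam u = lam b ∧ ¬ B u := by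
    intro b u hb hu hadj
    rcases hBW b hb with ⟨l, hl, rfl⟩ | ⟨i, hi, rfl⟩ <;>
      rcases hu with ⟨l', hl', rfl⟩ | ⟨i', hi', rfl⟩
    · rw [BC l hl] at hb
      have := hole_adj h hl hl' hadj
      rw [lamC l hl, lamC l' hl', BC l' hl']
      constructor
      · split_ifs <;> omega
      · omega
    · rw [BC l hl] at hb
      have := aZC i' l hi' hl hadj.symm
      omega
    · rw [BZ i hi] at hb
      have := aZC i l' hi hl' hadj
      omega
    · rw [BZ i hi] at hb
      rw [hind i i' hi hi'] at hadj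
      rw [lamZ i hi, lamZ i' hi', BZ i' hi']
      omega
  have h2 : ∀ u v, W u → W v → ¬ B u → ¬ B v → G.Adj u v → lam u ≠ lam v := by
    intro u v hu hv hbu hbv hadj
    rcases hu with ⟨l, hl, rfl⟩ | ⟨i, hi, rfl⟩ <;>
      rcases hv with ⟨l', hl', rfl⟩ | ⟨i', hi', rfl⟩
    · rw [BC l hl] at hbu
      rw [BC l' hl'] at hbv
      have := hole_adj h hl hl' hadj
      rw [lamC l hl, lamC l' hl']
      split_ifs <;> omega
    · rw [lamC l hl, lamZ i' hi']
      split_ifs <;> omega
    · rw [lamC l' hl', lamZ i hi]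
      split_ifs <;> omega
    · rw [BZ i hi] at hbu
      rw [BZ i' hi'] at hbv
      rw [hind i i' hi hi'] at hadj
      omega
  have h3 : ∀ K : Finset V, G.IsClique (K : Set V) → (∀ v ∈ K, W v ∧ ¬ B v) → K.card ≤ 3 := by
    intro K hK hKW
    by_contra hlt
    have hli : Set.InjOn lam (K : Set V) := by
      intro u hu v hv he
      by_contra hne
      exact h2 u v (hKW u hu).1 (hKW v hv).1 (hKW u hu).2 (hKW v hv).2 (hK hu hv hne) he
    have hcard : (K.image lam).card = K.card := Finset.card_image_of_injOn hli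
    have hsub : K.image lam ⊆ range 4 := by
      intro n hn
      obtain ⟨v, hv, rfl⟩ := mem_image.1 hn
      rw [mem_range]
      rcases (hKW v hv).1 with ⟨l, hl, rfl⟩ | ⟨i, hi, rfl⟩
      · rw [lamC l hl]; split_ifs <;> omega
      · rw [lamZ i hi]; omega
    have heq : K.image lam = range 4 := by
      apply Finset.eq_of_subset_of_card_le hsub
      rw [card_range]
      omega
    have get : ∀ n, n < 4 → ∃ v ∈ K, lam v = n := by
      intro n hn
      have : n ∈ K.image lam := by rw [heq]; exact mem_range.2 hn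
      obtain ⟨v, hv, e⟩ := mem_image.1 this
      exact ⟨v, hv, e⟩
    obtain ⟨v0, hv0, e0⟩ := get 0 (by omega)
    obtain ⟨v1, hv1, e1⟩ := get 1 (by omega)
    obtain ⟨v3, hv3, e3⟩ := get 3 (by omega)
    have a01 := hK hv0 hv1 (fun e => by rw [e] at e0; omega)
    have a30 := hK hv3 hv0 (fun e => by rw [e] at e3; omega)
    have a31 := hK hv3 hv1 (fun e => by rw [e] at e3; omega)
    rcases (hKW v0 hv0).1 with ⟨l0, hl0, rfl⟩ | ⟨i0, hi0, rfl⟩
    · rw [lamC l0 hl0] at e0
      rcases (hKW v1 hv1).1 with ⟨l1, hl1, rfl⟩ | ⟨i1, hi1, rfl⟩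
      · rw [lamC l1 hl1] at e1
        rcases (hKW v3 hv3).1 with ⟨l3, hl3, rfl⟩ | ⟨i3, hi3, rfl⟩
        · rw [lamC l3 hl3] at e3
          split_ifs at e3 <;> omega
        · have g1 := hole_adj h hl0 hl1 a01
          have g2 := aZC i3 l0 hi3 hl0 a30
          have g3 := aZC i3 l1 hi3 hl1 a31
          have hl01 : l0 = 1 := by
            by_contra hn
            rw [if_neg hn] at e0
            split_ifs at e0 <;> omega
          have hl11 : 2 ≤ l1 ∧ l1 ≤ 2 * a := by
            by_contra hn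
            rw [if_neg hn] at e1
            split_ifs at e1 <;> omega
          omega
      · rw [lamZ i1 hi1] at e1
        omega
    · rw [lamZ i0 hi0] at e0
      omega
  refine ⟨_, lab lam hBW h1 h2 h3, ?_, ?_⟩
  · intro l hl
    have g1 : W (c (l : ZMod (2 * m + 1))) := Or.inl ⟨l, hl, rfl⟩
    have g2 := BC l hl
    simp only [g1, if_true, g2, le_refl]
  · intro i hi
    have g1 : W (z i) := Or.inr ⟨i, hi, rfl⟩
    have g2 := BZ i hi
    simp only [g1, if_true, g2, le_refl]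

theorem noear0 (hP : HS G ⊆ convexHull ℝ {y : V → ℝ | ∃ S : Finset V,
      G.IsIndepSet (S : Set V) ∧ y = fun v => if v ∈ S then (1 : ℝ) else 0})
    {m : ℕ} {c : ZMod (2 * m + 1) → V} (h : Hole G m c) {a : ℕ}
    (ha1 : 1 ≤ a) (ham : a ≤ m) {t : ℕ} (ht : 1 ≤ t) {z : ℕ → V} (hz0 : At G c (z 0) 0)
    (hzt : At G c (z (2 * t)) ((2 * a : ℕ) : ZMod (2 * m + 1)))
    (hint : ∀ i, 0 < i → i < 2 * t → ∀ x, z i ≠ c x ∧ ¬ G.Adj (z i) (c x))
    (hind : ∀ i j, i ≤ 2 * t → j ≤ 2 * t → (G.Adj (z i) (z j) ↔ j = i + 1 ∨ i = j + 1))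
    (hinj : ∀ i j, i ≤ 2 * t → j ≤ 2 * t → z i = z j → i = j) : False := by
  classical
  have hm := h.two_le
  obtain ⟨x, hx, hxC, hxZ⟩ := ear_HS h ha1 ham ht hz0 hzt hint hind hinj
  have hval := valid (G := G) (univ : Finset (ZMod (2 * m + 1) ⊕ Fin (2 * t + 1)))
    (Sum.elim c (fun i => z i)) ((m + t : ℕ) : ℝ) (hP hx) (by
      intro S hS
      rw [Fintype.sum_sum_type]
      simp only [Sum.elim_inl, Sum.elim_inr]
      set s : ZMod (2 * m + 1) → ℕ := fun x => if c x ∈ S then 1 else 0 with hs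
      set r : ℕ → ℕ := fun i => if z i ∈ S then 1 else 0 with hr
      have key : ∑ x, s x + ∑ i : Fin (2 * t + 1), r i ≤ m + t := by
        rw [Fin.sum_univ_eq_sum_range (fun i => r i) (2 * t + 1)]
        have hd0 : ((2 * a : ℕ) : ZMod (2 * m + 1)) ≠ 0 := ncast (by omega) (by omega)
        have g1 : ∀ x, s x + s (x + 1) + ((if x = 0 then r 0 else 0) +
            (if x = ((2 * a : ℕ) : ZMod (2 * m + 1)) then r (2 * t) else 0)) ≤ 1 := by
          intro x
          have hst := nat_stable h hS x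
          have gen : ∀ v, At G c v x → (if v ∈ S then 1 else 0) + (s x + s (x + 1)) ≤ 1 := by
            intro v hv
            by_cases hvS : v ∈ S
            · have n1 : c x ∉ S := fun hh => hS hvS hh hv.left.ne hv.left
              have n2 : c (x + 1) ∉ S := fun hh => hS hvS hh hv.right.ne hv.right
              simp only [hs, hvS, n1, n2, if_true, if_false, add_zero, le_refl]
            · simp only [hvS, if_false, zero_add]
              exact hst
          by_cases hx0 : x = 0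
          · subst hx0
            rw [if_pos rfl, if_neg hd0.symm]
            have := gen _ hz0
            simp only [hr]
            omega
          · by_cases hxd : x = ((2 * a : ℕ) : ZMod (2 * m + 1))
            · subst hxd
              rw [if_neg hx0, if_pos rfl]
              have := gen _ hzt
              simp only [hr]
              omega
            · rw [if_neg hx0, if_neg hxd]
              simp only [add_zero]
              exact hst
        have g2 : ∑ x, (s x + s (x + 1) + ((if x = 0 then r 0 else 0) +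
            (if x = ((2 * a : ℕ) : ZMod (2 * m + 1)) then r (2 * t) else 0)))
            ≤ ∑ _x : ZMod (2 * m + 1), 1 := Finset.sum_le_sum fun x _ => g1 x
        rw [Finset.sum_add_distrib, Finset.sum_add_distrib, Finset.sum_add_distrib,
          sum_shift s 1, Finset.sum_ite_eq', Finset.sum_ite_eq'] at g2
        simp only [mem_univ, if_true, Finset.sum_const, card_univ, ZMod.card, smul_eq_mul,
          mul_one] at g2
        have g3 : ∀ i ∈ range (2 * t), r i + r (i + 1) ≤ 1 := by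
          intro i hi
          have hi := mem_range.1 hi
          have hadj : G.Adj (z i) (z (i + 1)) := (hind i (i + 1) (by omega) (by omega)).2 (Or.inl rfl)
          by_cases h1 : z i ∈ S
          · have h2 : z (i + 1) ∉ S := fun h2 => hS h1 h2 hadj.ne hadj
            simp only [hr, h1, h2, if_true, if_false, add_zero, le_refl]
          · simp only [hr, h1, if_false, zero_add]
            split_ifs <;> omega
        have g4 := Finset.sum_le_sum g3
        rw [Finset.sum_add_distrib, Finset.sum_const, card_range, smul_eq_mul, mul_one] at g4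
        have g5 := Finset.sum_range_succ r (2 * t)
        have g6 := Finset.sum_range_succ' r (2 * t)
        omega
      have key' : ((∑ x, s x + ∑ i : Fin (2 * t + 1), r i : ℕ) : ℝ) ≤ ((m + t : ℕ) : ℝ) := by
        exact_mod_cast key
      refine le_trans (le_of_eq ?_) key'
      push_cast
      simp only [hs, hr]
      congr 1
      · apply Finset.sum_congr rfl
        intro i _
        by_cases hh : c i ∈ S <;> simp [hh]
      · apply Finset.sum_congr rfl
        intro i _
        by_cases hh : z i ∈ S <;> simp [hh])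
  rw [Fintype.sum_sum_type] at hval
  simp only [Sum.elim_inl, Sum.elim_inr] at hval
  rw [Fin.sum_univ_eq_sum_range (fun i => x (z i)) (2 * t + 1), sum_zmod] at hval
  have e1 : ∑ l ∈ range (2 * m + 1), ((1 : ℝ) / 3 +
      (if (l % 2 = 0 ∧ 2 * a + 2 ≤ l) ∨ (l % 2 = 1 ∧ 3 ≤ l ∧ l + 1 ≤ 2 * a) then (1 : ℝ) / 3
        else 0)) ≤ ∑ l ∈ range (2 * m + 1), x (c (l : ZMod (2 * m + 1))) :=
    Finset.sum_le_sum fun l hl => hxC l (by have := mem_range.1 hl; omega)
  have e2 : ∑ i ∈ range (2 * t + 1), ((1 : ℝ) / 3 + (if i % 2 = 1 then (1 : ℝ) / 3 else 0))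
      ≤ ∑ i ∈ range (2 * t + 1), x (z i) :=
    Finset.sum_le_sum fun i hi => hxZ i (by have := mem_range.1 hi; omega)
  have e3 : m ≤ 1 + ∑ l ∈ range (2 * m + 1),
      (if (l % 2 = 0 ∧ 2 * a + 2 ≤ l) ∨ (l % 2 = 1 ∧ 3 ≤ l ∧ l + 1 ≤ 2 * a) then 1 else 0) := by
    rw [sum_pair]
    obtain ⟨m', rfl⟩ : ∃ m', m = m' + 1 := ⟨m - 1, by omega⟩
    rw [Finset.sum_range_succ']
    have : ∑ _j ∈ range m', 1 ≤ ∑ j ∈ range m',
        ((if ((2 * (j + 1) + 1) % 2 = 0 ∧ 2 * a + 2 ≤ 2 * (j + 1) + 1) ∨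
          ((2 * (j + 1) + 1) % 2 = 1 ∧ 3 ≤ 2 * (j + 1) + 1 ∧ 2 * (j + 1) + 1 + 1 ≤ 2 * a)
            then 1 else 0) +
        (if ((2 * (j + 1) + 2) % 2 = 0 ∧ 2 * a + 2 ≤ 2 * (j + 1) + 2) ∨
          ((2 * (j + 1) + 2) % 2 = 1 ∧ 3 ≤ 2 * (j + 1) + 2 ∧ 2 * (j + 1) + 2 + 1 ≤ 2 * a)
            then 1 else 0)) := by
      apply Finset.sum_le_sum
      intro j _
      split_ifs <;> omega
    rw [Finset.sum_const, card_range, smul_eq_mul, mul_one] at this
    omega
  have e4 : t ≤ ∑ i ∈ range (2 * t + 1), (if i % 2 = 1 then 1 else 0) := by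
    rw [sum_pair]
    have : ∑ _j ∈ range t, 1 ≤ ∑ j ∈ range t, ((if (2 * j + 1) % 2 = 1 then 1 else 0) +
        (if (2 * j + 2) % 2 = 1 then 1 else 0)) := by
      apply Finset.sum_le_sum
      intro j _
      split_ifs <;> omega
    rw [Finset.sum_const, card_range, smul_eq_mul, mul_one] at this
    omega
  have e3' : (m : ℝ) ≤ 1 + ∑ l ∈ range (2 * m + 1),
      (if (l % 2 = 0 ∧ 2 * a + 2 ≤ l) ∨ (l % 2 = 1 ∧ 3 ≤ l ∧ l + 1 ≤ 2 * a) then (1 : ℝ)
        else 0) := by exact_mod_cast e3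
  have e4' : (t : ℝ) ≤ ∑ i ∈ range (2 * t + 1), (if i % 2 = 1 then (1 : ℝ) else 0) := by
    exact_mod_cast e4
  have e5 : ∑ l ∈ range (2 * m + 1), ((1 : ℝ) / 3 +
      (if (l % 2 = 0 ∧ 2 * a + 2 ≤ l) ∨ (l % 2 = 1 ∧ 3 ≤ l ∧ l + 1 ≤ 2 * a) then (1 : ℝ) / 3
        else 0)) = (2 * m + 1) / 3 + (∑ l ∈ range (2 * m + 1),
      (if (l % 2 = 0 ∧ 2 * a + 2 ≤ l) ∨ (l % 2 = 1 ∧ 3 ≤ l ∧ l + 1 ≤ 2 * a) then (1 : ℝ)
        else 0)) / 3 := by
    rw [Finset.sum_add_distrib, Finset.sum_const, card_range, nsmul_eq_mul, Finset.sum_div]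
    congr 1
    · push_cast; ring
    · apply Finset.sum_congr rfl
      intro l _
      split_ifs <;> simp
  have e6 : ∑ i ∈ range (2 * t + 1), ((1 : ℝ) / 3 + (if i % 2 = 1 then (1 : ℝ) / 3 else 0))
      = (2 * t + 1) / 3 + (∑ i ∈ range (2 * t + 1), (if i % 2 = 1 then (1 : ℝ) else 0)) / 3 := by
    rw [Finset.sum_add_distrib, Finset.sum_const, card_range, nsmul_eq_mul, Finset.sum_div]
    congr 1
    · push_cast; ring
    · apply Finset.sum_congr rfl
      intro l _
      split_ifs <;> simp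
  rw [e5] at e1
  rw [e6] at e2
  push_cast at hval
  linarith

theorem noear_of (hP : HS G ⊆ convexHull ℝ {y : V → ℝ | ∃ S : Finset V,
      G.IsIndepSet (S : Set V) ∧ y = fun v => if v ∈ S then (1 : ℝ) else 0}) : NoEar G := by
  intro m c h t z s s' ht hne h0 h1 hint hind hinj
  obtain ⟨l, hl, hle⟩ := exists_cast (s' - s)
  have hl0 : l ≠ 0 := by
    rintro rfl
    apply hne
    rw [Nat.cast_zero] at hle
    exact (sub_eq_zero.1 hle).symm
  rcases Nat.even_or_odd' l with ⟨a, rfl | rfl⟩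
  · refine noear0 hP (h.shift s) (a := a) (by omega) (by omega) ht (z := z) ?_ ?_ ?_ hind hinj
    · rw [at_shift, zero_add]; exact h0
    · rw [at_shift, ← hle, sub_add_cancel]; exact h1
    · intro i hi0 hi x
      exact hint i hi0 hi _
  · refine noear0 hP (h.shift s') (a := m - a) (by omega) (by omega) ht
      (z := fun i => z (2 * t - i)) ?_ ?_ ?_ ?_ ?_
    · rw [at_shift, zero_add]; simpa using h1
    · rw [at_shift]
      have e : ((2 * (m - a) : ℕ) : ZMod (2 * m + 1)) + s' = s := by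
        have e : ((2 * (m - a) + (2 * a + 1) : ℕ) : ZMod (2 * m + 1)) = 0 := by
          rw [show 2 * (m - a) + (2 * a + 1) = 2 * m + 1 by omega]
          exact cast_top
        rw [Nat.cast_add] at e
        linear_combination e + hle
      rw [e]
      simpa using h0
    · intro i hi0 hi x
      exact hint _ (by omega) (by omega) _
    · intro i j hi hj
      rw [hind _ _ (by omega) (by omega)]
      omega
    · intro i j hi hj he
      have := hinj _ _ (by omega) (by omega) he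
      omega

end Pool.Agent.H9.IDP
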