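import Mathlib
import Pool.Agent.H9.IDP.Poly5
import Pool.Agent.H9.IDP.Core2

set_option autoImplicit false
set_option linter.unusedSectionVars false

namespace Pool.Agent.H9.IDP

open Finset

variable {V : Type*} [DecidableEq V] [Fintype V] {G : SimpleGraph V}

theorem clique_indep {K S : Finset V} (hK : G.IsClique (K : Set V))
    (hS : G.IsIndepSet (S : Set V)) : ∑ u ∈ K, (if u ∈ S then (1 : ℝ) else 0) ≤ 1 := by
  rw [Finset.sum_boole]
  have : (K.filter fun u => u ∈ S).card ≤ 1 := by
    rw [Finset.card_le_one]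
    intro a ha b hb
    simp only [mem_filter] at ha hb
    by_contra hne
    exact hS ha.2 hb.2 hne (hK ha.1 hb.1 hne)
  exact_mod_cast this

theorem extract_of (hP : HS G ⊆ convexHull ℝ {y : V → ℝ | ∃ S : Finset V,
      G.IsIndepSet (S : Set V) ∧ y = fun v => if v ∈ S then (1 : ℝ) else 0}) : Extract G := by
  classical
  intro k w hk hG ⟨v, hv⟩
  have hk0 : (0 : ℝ) < k := by exact_mod_cast hk
  set x : V → ℝ := fun u => (w u : ℝ) / k with hx
  have hxHS : x ∈ HS G := by
    refine mem_HS (fun u => by simp only [hx]; positivity) ?_ ?_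
    · intro K hK
      simp only [hx, ← Finset.sum_div]
      rw [div_le_one hk0]
      exact_mod_cast hG.1 K hK
    · intro m c hc
      simp only [hx, ← Finset.sum_div]
      rw [div_le_iff₀ hk0]
      have h1 := hG.2 m c hc
      have h2 : ((∑ t, w (c t) : ℕ) : ℝ) ≤ ((k * m : ℕ) : ℝ) := by exact_mod_cast h1
      push_cast at h2
      linarith
  obtain ⟨ι, _, lam, z, hl0, hl1, hz, hxz⟩ := mem_convexHull_iff_exists_fintype.1 (hP hxHS)
  choose S hS hzS using hz
  have hxu : ∀ u, x u = ∑ i, lam i * (if u ∈ S i then (1 : ℝ) else 0) := by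
    intro u
    rw [← hxz, Finset.sum_apply]
    apply Finset.sum_congr rfl
    intro i _
    rw [Pi.smul_apply, hzS i, smul_eq_mul]
  have hxv : 0 < x v := by
    simp only [hx]
    have : (0 : ℝ) < w v := by
      have : 0 < w v := Nat.pos_of_ne_zero hv
      exact_mod_cast this
    positivity
  have hex : ∃ i, lam i * (if v ∈ S i then (1 : ℝ) else 0) ≠ 0 := by
    by_contra hcon
    have : x v = 0 := by
      rw [hxu v]
      apply Finset.sum_eq_zero
      intro i _
      by_contra h
      exact hcon ⟨i, h⟩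
    linarith
  obtain ⟨i, hi⟩ := hex
  have hvi : v ∈ S i := by
    by_contra h
    apply hi
    simp [h]
  have hli : 0 < lam i := by
    have : lam i ≠ 0 := by
      intro h
      apply hi
      simp [h]
    exact lt_of_le_of_ne (hl0 i) this.symm
  refine ⟨S i, fun a ha b hb hab => hS i ha hb hab.ne hab, ⟨v, hvi⟩, ?_, ?_⟩
  · intro u hu
    by_contra hlt
    have hw0 : w u = 0 := by omega
    have hx0 : x u = 0 := by simp [hx, hw0]
    rw [hxu u] at hx0
    have := (Finset.sum_eq_zero_iff_of_nonneg (fun j _ => by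
      have := hl0 j
      positivity)).1 hx0 i (mem_univ _)
    simp only [hu, if_true, mul_one] at this
    linarith
  · intro K hK hKw
    by_contra hcon
    have hno : ∀ u ∈ K, u ∉ S i := fun u hu hh => hcon ⟨u, hu, hh⟩
    have e1 : ∑ u ∈ K, x u = 1 := by
      simp only [hx, ← Finset.sum_div]
      rw [div_eq_one_iff_eq hk0.ne']
      exact_mod_cast hKw
    simp only [hxu] at e1
    rw [Finset.sum_comm] at e1
    simp only [← Finset.mul_sum] at e1
    have e2 : ∑ j, lam j * ∑ u ∈ K, (if u ∈ S j then (1 : ℝ) else 0) < ∑ j, lam j := by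
      apply Finset.sum_lt_sum
      · intro j _
        have h1 := clique_indep hK (hS j)
        have h2 := mul_le_mul_of_nonneg_left h1 (hl0 j)
        linarith
      · refine ⟨i, mem_univ _, ?_⟩
        have : ∑ u ∈ K, (if u ∈ S i then (1 : ℝ) else 0) = 0 := by
          apply Finset.sum_eq_zero
          intro u hu
          rw [if_neg (hno u hu)]
        rw [this, mul_zero]
        exact hli
    linarith

theorem main (hc : ClawFree G) (hP : HS G = convexHull ℝ {y : V → ℝ | ∃ S : Finset V,
      G.IsIndepSet (S : Set V) ∧ y = fun v => if v ∈ S then (1 : ℝ) else 0}) (k : ℕ) (w : V → ℕ)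
    (hw : Good G k w) : ∃ φ : V → Finset (Fin k), Proper G φ ∧ Full w φ := by
  have X : Ctx G := ⟨hc, att_of hc hP.subset, noear_of hP.subset⟩
  exact core X (extract_of hP.subset) _ k w rfl hw

theorem good_of {k : ℕ} {w : V → ℕ} {z : V → ℝ} (hz : z ∈ HS G)
    (h : ∀ v, (w v : ℝ) = (k : ℝ) * z v) : Good G k w := by
  have hk0 : (0 : ℝ) ≤ k := Nat.cast_nonneg k
  constructor
  · intro K hK
    have h1 := hz.2.1 K hK
    have h2 : ((∑ v ∈ K, w v : ℕ) : ℝ) ≤ (k : ℝ) := by
      push_cast
      simp only [h, ← Finset.mul_sum]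
      have := mul_le_mul_of_nonneg_left h1 hk0
      linarith
    exact_mod_cast h2
  · intro m c hc
    have h1 := hole_of_mem_HS hz hc
    have h2 : ((∑ t, w (c t) : ℕ) : ℝ) ≤ ((k * m : ℕ) : ℝ) := by
      push_cast
      simp only [h, ← Finset.mul_sum]
      exact mul_le_mul_of_nonneg_left h1 hk0
    exact_mod_cast h2

end Pool.Agent.H9.IDP
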